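import Pool.Agent.Zk2.LW.F
import Pool.Agent.Zk2.WP.Fin

/-! # The local Weil criterion for the zeta function -/

set_option autoImplicit false
set_option linter.unusedSectionVars false
set_option maxHeartbeats 1000000

open Complex Filter Topology Set MeasureTheory Metric
open scoped ComplexConjugate

namespace Pool.Agent.Zk2.LW

open Pool.Agent.Y23 (TT Fa N2 plancherel N2_nonneg norm_TT_le differentiable_TT)
open Pool.Agent.Y23.G (gsq gsq_nonneg gsq_cont gsq_int QQ Hd GG mu Zt aL GD GD_bd GD_cont Lg one_le_Lg LFun zd zc QB_self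
  summable_GG)
open Pool.Agent.Zk2.WP (zL aL_eq eqZ eqZ_coe Ml_shift wterm_eq zero_iff)
open Pool.Agent.Zk4.W

/-- Chebyshev's bound with square roots -/
lemma cheb_sqrt (N : ℕ) : ∑ n ∈ Finset.Icc 1 N, ArithmeticFunction.vonMangoldt n / Real.sqrt n ≤ 12 * Real.sqrt N := by
  have hc : Real.log 4 + 4 ≤ 6 := by
    have h1 : Real.log 4 = 2 * Real.log 2 := by
      rw [show (4 : ℝ) = 2 ^ 2 by norm_num, Real.log_pow]
      norm_num
    have h2 := Real.log_two_lt_d9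
    linarith
  have hpsi : ∀ M : ℕ, ∑ n ∈ Finset.Icc 1 M, ArithmeticFunction.vonMangoldt n ≤ 6 * M := by
    intro M
    have h := Chebyshev.psi_le_const_mul_self (x := (M : ℝ)) (Nat.cast_nonneg M)
    unfold Chebyshev.psi at h
    rw [Nat.floor_natCast] at h
    have e : Finset.Ioc 0 M = Finset.Icc 1 M := by ext k; simp [Nat.succ_le_iff]
    rw [e] at h
    refine h.trans (mul_le_mul_of_nonneg_right hc (Nat.cast_nonneg M))
  have key : ∀ M : ℕ, 1 ≤ M → ∑ n ∈ Finset.Icc 1 M, ArithmeticFunction.vonMangoldt n / Real.sqrt n ≤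
      (∑ n ∈ Finset.Icc 1 M, ArithmeticFunction.vonMangoldt n) / Real.sqrt M + 6 * Real.sqrt M := by
    intro M hM
    induction M, hM using Nat.le_induction with
    | base => simp
    | succ M hM ih =>
      rw [Finset.sum_Icc_succ_top (by omega), Finset.sum_Icc_succ_top (by omega)]
      have hM0 : (0 : ℝ) < M := by exact_mod_cast hM
      set x : ℝ := Real.sqrt M with hx
      set y : ℝ := Real.sqrt ((M + 1 : ℕ) : ℝ) with hy
      have hx0 : 0 < x := Real.sqrt_pos.2 hM0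
      have hxy : x ≤ y := Real.sqrt_le_sqrt (by push_cast; linarith)
      have hy0 : 0 < y := lt_of_lt_of_le hx0 hxy
      have hx2 : (M : ℝ) = x * x := (Real.mul_self_sqrt hM0.le).symm
      set P : ℝ := ∑ n ∈ Finset.Icc 1 M, ArithmeticFunction.vonMangoldt n with hP
      have hP1 : P ≤ 6 * (x * x) := by rw [← hx2]; exact hpsi M
      have h1 : P / x - P / y ≤ 6 * (y - x) := by
        rw [div_sub_div _ _ hx0.ne' hy0.ne', div_le_iff₀ (by positivity)]
        have h2 : P * (y - x) ≤ 6 * (x * x) * (y - x) := mul_le_mul_of_nonneg_right hP1 (by linarith)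
        have h3 : 6 * (x * x) * (y - x) ≤ 6 * (x * y) * (y - x) := by
          refine mul_le_mul_of_nonneg_right ?_ (by linarith)
          nlinarith
        nlinarith
      have h2 : (P + ArithmeticFunction.vonMangoldt (M + 1)) / y = P / y + ArithmeticFunction.vonMangoldt (M + 1) / y :=
        add_div _ _ _
      rw [h2]
      linarith
  rcases Nat.eq_zero_or_pos N with h0 | h0
  · subst h0
    simp
  · have h1 := key N h0
    have hN0 : (0 : ℝ) < N := by exact_mod_cast h0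
    have hx0 : 0 < Real.sqrt N := Real.sqrt_pos.2 hN0
    have h2 : (∑ n ∈ Finset.Icc 1 N, ArithmeticFunction.vonMangoldt n) / Real.sqrt N ≤ 6 * Real.sqrt N := by
      rw [div_le_iff₀ hx0, mul_assoc, Real.mul_self_sqrt hN0.le]
      exact hpsi N
    linarith

/-- the sum over the primes -/
lemma prime_le {a : ℝ} (_ : 0 < a) :
    2 * ∑ n ∈ Finset.Icc 1 ⌊Real.exp (2 * (a + 1))⌋₊, ‖aL (L := zL) n‖ ≤ 24 * Real.exp (a + 1) := by
  have h1 : ∑ n ∈ Finset.Icc 1 ⌊Real.exp (2 * (a + 1))⌋₊, ‖aL (L := zL) n‖ =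
      ∑ n ∈ Finset.Icc 1 ⌊Real.exp (2 * (a + 1))⌋₊, ArithmeticFunction.vonMangoldt n / Real.sqrt n := by
    refine Finset.sum_congr rfl fun n hn => ?_
    rw [aL_eq (Finset.mem_Icc.1 hn).1, Complex.norm_real, Real.norm_of_nonneg]
    exact div_nonneg ArithmeticFunction.vonMangoldt_nonneg (Real.sqrt_nonneg _)
  rw [h1]
  have h2 := cheb_sqrt ⌊Real.exp (2 * (a + 1))⌋₊
  have h3 : Real.sqrt (⌊Real.exp (2 * (a + 1))⌋₊ : ℝ) ≤ Real.exp (a + 1) := by
    rw [Real.sqrt_le_left (Real.exp_pos _).le]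
    refine (Nat.floor_le (Real.exp_pos _).le).trans (le_of_eq ?_)
    rw [← Real.exp_nat_mul]
    norm_num
  linarith

/-- the local criterion on symmetric intervals -/
theorem local_zeta : ∃ C : ℝ, 0 < C ∧ ∀ a : ℝ, 0 < a → ∃ c : ℝ, 0 < c ∧
    ∀ f : ℝ → ℂ, Hd a f → (∀ ρ : Zt (D := zd (L := zL)), 1 / 2 < (ρ : ℂ).re → |(ρ : ℂ).im| ≤ Real.exp (C * Real.exp a) →
      TT f ((ρ : ℂ) - 1 / 2) = 0) → c * N2 f ≤ QQ (D := zd (L := zL)) f := by
  obtain ⟨C, hC, h⟩ := core (L := zL)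
  refine ⟨C * (1 + 24 * Real.exp 1), by positivity, fun a ha => ?_⟩
  obtain ⟨c, hc, h2⟩ := h a (24 * Real.exp (a + 1)) ha (by positivity) (prime_le ha)
  refine ⟨c, hc, fun f hf hz => h2 f hf fun ρ h3 h4 => hz ρ h3 (h4.trans (Real.exp_le_exp.2 ?_))⟩
  have h5 : a + 1 ≤ Real.exp a := Real.add_one_le_exp a
  rw [Real.exp_add, mul_assoc]
  refine mul_le_mul_of_nonneg_left ?_ hC.le
  have : 24 * (Real.exp a * Real.exp 1) = 24 * Real.exp 1 * Real.exp a := by ring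
  rw [this, add_mul, one_mul]
  linarith

/-- THE LOCAL WEIL CRITERION -/
theorem local_weil : ∃ C : ℝ, 0 < C ∧ ∀ a : ℝ, 0 < a → ∃ ε : ℝ, 0 < ε ∧
    ∀ (f : ℝ → ℂ) (c : ℝ), MemLp f 2 volume → (∀ x, x ∉ Icc (c - a) (c + a) → f x = 0) →
      Integrable (fun t : ℝ => Real.log (3 + |t|) * ‖Ml f (t * Complex.I)‖ ^ 2) →
      (∀ ρ : Zs, 1 / 2 < (ρ : ℂ).re → |(ρ : ℂ).im| ≤ Real.exp (C * Real.exp a) → Ml f ((ρ : ℂ) - 1 / 2) = 0) →
      ε * ∫ x, ‖f x‖ ^ 2 ≤ (∑' ρ, wterm f ρ).re := by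
  obtain ⟨C, hC, h⟩ := local_zeta
  refine ⟨C, hC, fun a ha => ?_⟩
  obtain ⟨ε, hε, h2⟩ := h a ha
  refine ⟨ε, hε, fun f c hf hsupp hL hz => ?_⟩
  set g : ℝ → ℂ := fun x => f (x + c) with hg
  have hgFa : Fa a g := by
    refine ⟨hf.comp_measurePreserving (measurePreserving_add_right volume c), fun x hx => ?_⟩
    refine hsupp _ fun h => ?_
    have h1 : |x| ≤ a := abs_le.2 ⟨by linarith [h.1], by linarith [h.2]⟩
    linarith
  have hLg : Integrable (fun v : ℝ => Lg v * ‖TT g (v * I)‖ ^ 2) := by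
    refine hL.congr (Eventually.of_forall fun v => ?_)
    show Real.log (3 + |v|) * ‖Ml f (v * I)‖ ^ 2 = Lg v * ‖TT g (v * I)‖ ^ 2
    rw [Ml_shift f c, norm_mul]
    have : (v * I : ℂ) * c = ((v * c : ℝ) : ℂ) * I := by push_cast; ring
    rw [this, Complex.norm_exp_ofReal_mul_I, one_mul]
    rfl
  have hHd : Hd a g := ⟨hgFa, hLg⟩
  have hdom : Pool.Agent.Y23.G.Dom (D := zd (L := zL)) g :=
    Pool.Agent.Y23.G.Hd.dom (DZ := zd (L := zL)) (EC := zc (L := zL)) ha hHd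
  have hsum := summable_GG (DZ := zd (L := zL)) hdom hdom
  have hQB := QB_self (DZ := zd (L := zL)) hdom
  have hw : wterm f = (fun ρ : Zt (D := zd (L := zL)) =>
      (mu (D := zd (L := zL)) (ρ : ℂ) : ℂ) * GG g g ((ρ : ℂ) - 1 / 2)) ∘ eqZ := by
    funext ρ
    exact wterm_eq f c ρ
  have h3 : ∑' ρ, wterm f ρ = (QQ (D := zd (L := zL)) g : ℂ) := by
    rw [hw, ← hQB]
    exact eqZ.tsum_eq (fun ρ : Zt (D := zd (L := zL)) =>
      (mu (D := zd (L := zL)) (ρ : ℂ) : ℂ) * GG g g ((ρ : ℂ) - 1 / 2))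
  rw [h3, Complex.ofReal_re]
  have h4 : N2 g = ∫ x, ‖f x‖ ^ 2 := by
    unfold N2
    exact integral_add_right_eq_self (fun x => ‖f x‖ ^ 2) c
  rw [← h4]
  refine h2 g hHd fun ρ h5 h6 => ?_
  have hρ : (ρ : ℂ) ∈ Zs := (zero_iff (ρ : ℂ)).2 ρ.2
  have h7 := hz ⟨(ρ : ℂ), hρ⟩ h5 h6
  rw [Ml_shift f c] at h7
  exact (mul_eq_zero.1 h7).resolve_left (Complex.exp_ne_zero _)

end Pool.Agent.Zk2.LW
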