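import Pool.Agent.Zk2.WP.Sp1

/-! # The local Weil criterion: averages and differences -/

set_option autoImplicit false
set_option maxHeartbeats 1000000

open Complex Filter Topology Set MeasureTheory
open scoped ComplexConjugate

namespace Pool.Agent.Zk2.LW

open Pool.Agent.Y23 (TT Fa N2 plancherel N2_nonneg norm_TT_le)
open Pool.Agent.Y23.G (gsq gsq_nonneg gsq_cont gsq_int CC CC_zero Fa_shift Lg one_le_Lg Hd TT_shift)
open Pool.Agent.Zk2.WP (Av sg Av_Fa TT_Av zL)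

/-- the multiplier of the average on the line -/
lemma sg_line {ε : ℝ} (hε : 0 < ε) (v : ℝ) : sg ε (v * I) = ((Real.sinc (ε * v) : ℝ) : ℂ) := by
  by_cases hv : v = 0
  · subst hv
    unfold sg
    simp only [Complex.ofReal_zero, zero_mul, Complex.exp_zero, mul_zero, Real.sinc_zero, Complex.ofReal_one]
    rw [intervalIntegral.integral_const]
    simp only [Complex.real_smul, mul_one]
    rw [← Complex.ofReal_mul]
    have : (2 * ε)⁻¹ * (ε - -ε) = 1 := by field_simp; ring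
    rw [this, Complex.ofReal_one]
  · have hne : (v * I : ℂ) ≠ 0 := mul_ne_zero (by exact_mod_cast hv) I_ne_zero
    have hεv : ε * v ≠ 0 := mul_ne_zero hε.ne' hv
    unfold sg
    rw [integral_exp_mul_complex hne, Real.sinc_of_ne_zero hεv]
    have e1 : cexp (v * I * (ε : ℝ)) = Complex.cos (ε * v) + Complex.sin (ε * v) * I := by
      rw [← Complex.exp_mul_I]
      congr 1
      ring
    have e2 : cexp (v * I * ((-ε : ℝ) : ℂ)) = Complex.cos (ε * v) - Complex.sin (ε * v) * I := by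
      have : (v * I * ((-ε : ℝ) : ℂ)) = (-(ε * v : ℂ)) * I := by push_cast; ring
      rw [this, Complex.exp_mul_I, Complex.cos_neg, Complex.sin_neg]
      ring
    rw [e1, e2]
    push_cast
    have h1 : (ε : ℂ) ≠ 0 := by exact_mod_cast hε.ne'
    have h2 : (v : ℂ) ≠ 0 := by exact_mod_cast hv
    field_simp
    ring

/-- the formula of the multiplier -/
lemma sg_mul {ε : ℝ} (hε : 0 < ε) (w : ℂ) : w * sg ε w = (cexp (w * ε) - cexp (-(w * ε))) / (2 * ε) := by
  by_cases hw : w = 0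
  · subst hw
    simp
  · unfold sg
    rw [integral_exp_mul_complex hw]
    have h1 : (ε : ℂ) ≠ 0 := by exact_mod_cast hε.ne'
    have e2 : (w * ((-ε : ℝ) : ℂ)) = -(w * ε) := by push_cast; ring
    rw [e2]
    push_cast
    field_simp

lemma sg_conj {ε : ℝ} (hε : 0 < ε) (w : ℂ) : conj (sg ε (-conj w)) = sg ε w := by
  by_cases hw : w = 0
  · subst hw
    have h0 := sg_line hε 0
    rw [Complex.ofReal_zero, zero_mul] at h0
    rw [map_zero, neg_zero, h0, Complex.conj_ofReal]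
  · have h1 : (ε : ℂ) ≠ 0 := by exact_mod_cast hε.ne'
    have h2 := sg_mul hε w
    have h3 := congrArg conj (sg_mul hε (-conj w))
    simp only [map_mul, map_neg, map_sub, map_div₀, Complex.conj_conj, Complex.conj_ofReal, ← Complex.exp_conj,
      map_ofNat] at h3
    have e1 : cexp (-w * (ε : ℂ)) = cexp (-(w * ε)) := by rw [neg_mul]
    have e2 : cexp (-(-w * (ε : ℂ))) = cexp (w * ε) := by rw [neg_mul, neg_neg]
    rw [e1, e2] at h3
    have h4 : w * conj (sg ε (-conj w)) = w * sg ε w := by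
      rw [h2]
      linear_combination -h3
    exact mul_left_cancel₀ hw h4

/-- the multiplier far from the real axis -/
lemma sg_far {ε : ℝ} (hε : 0 < ε) (hε1 : ε ≤ 1) {w : ℂ} (hw : |w.re| ≤ 1 / 2) : ‖w‖ * ‖sg ε w‖ ≤ 2 / ε := by
  rw [← norm_mul, sg_mul hε, norm_div, norm_mul, Complex.norm_two, Complex.norm_real, Real.norm_of_nonneg hε.le]
  have h5 : Real.exp (1 / 2) ≤ 2 := by
    have h6 := Real.exp_one_lt_d9
    have h7 : Real.exp (1 / 2) * Real.exp (1 / 2) = Real.exp 1 := by rw [← Real.exp_add]; norm_num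
    have h8 := Real.exp_pos (1 / 2)
    nlinarith
  have h9 : |(w * ε).re| ≤ 1 / 2 := by
    have : (w * (ε : ℂ)).re = w.re * ε := by simp
    rw [this, abs_mul, abs_of_pos hε]
    calc |w.re| * ε ≤ 1 / 2 * 1 := mul_le_mul hw hε1 hε.le (by norm_num)
      _ = 1 / 2 := by norm_num
  have h6 : ‖cexp (w * ε) - cexp (-(w * ε))‖ ≤ 4 := by
    refine (norm_sub_le _ _).trans ?_
    rw [Complex.norm_exp, Complex.norm_exp, Complex.neg_re]
    have h7 : Real.exp (w * ε).re ≤ Real.exp (1 / 2) := Real.exp_le_exp.2 ((le_abs_self _).trans h9)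
    have h8 : Real.exp (-(w * ε).re) ≤ Real.exp (1 / 2) := Real.exp_le_exp.2 ((neg_le_abs _).trans h9)
    linarith
  calc ‖cexp (w * ε) - cexp (-(w * ε))‖ / (2 * ε) ≤ 4 / (2 * ε) := div_le_div_of_nonneg_right h6 (by positivity)
    _ = 2 / ε := by ring

/-- the iterated averages -/
noncomputable def Ai (ε : ℝ) (f : ℝ → ℂ) : ℕ → ℝ → ℂ
  | 0 => f
  | j + 1 => Av ε (Ai ε f j)

lemma Ai_Fa {ε b : ℝ} (hε : 0 < ε) {f : ℝ → ℂ} (hf : Fa b f) : ∀ j : ℕ, Fa (b + j * ε) (Ai ε f j)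
  | 0 => by simpa [Ai] using hf
  | j + 1 => by
    have h := Av_Fa hε (Ai_Fa hε hf j)
    have e : b + j * ε + ε = b + ((j + 1 : ℕ) : ℝ) * ε := by push_cast; ring
    rw [e] at h
    exact h

lemma TT_Ai {ε b : ℝ} (hε : 0 < ε) {f : ℝ → ℂ} (hf : Fa b f) (w : ℂ) : ∀ j : ℕ, TT (Ai ε f j) w = TT f w * sg ε w ^ j
  | 0 => by simp [Ai]
  | j + 1 => by
    have h := TT_Av hε (Ai_Fa hε hf j) w
    rw [TT_Ai hε hf w j] at h
    rw [pow_succ, ← mul_assoc]
    exact h

/-- the square of the multiplier on the line -/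
noncomputable def sq (ε : ℝ) (v : ℝ) : ℝ := Real.sinc (ε * v) ^ 2

lemma sq_nonneg' (ε v : ℝ) : 0 ≤ sq ε v := sq_nonneg _

lemma sq_le_one (ε v : ℝ) : sq ε v ≤ 1 := by
  unfold sq
  rw [← sq_abs]
  exact pow_le_one₀ (abs_nonneg _) (Real.abs_sinc_le_one _)

lemma sq_cont (ε : ℝ) : Continuous (sq ε) := (Real.continuous_sinc.comp (continuous_const.mul continuous_id)).pow 2

lemma gsq_Ai {ε b : ℝ} (hε : 0 < ε) {f : ℝ → ℂ} (hf : Fa b f) (j : ℕ) (v : ℝ) :
    gsq (Ai ε f j) v = sq ε v ^ j * gsq f v := by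
  unfold gsq sq
  rw [TT_Ai hε hf, norm_mul, norm_pow, sg_line hε, Complex.norm_real, Real.norm_eq_abs, mul_pow, ← pow_mul, mul_comm j 2,
    pow_mul, sq_abs, mul_comm]

lemma Hd_Ai {ε b : ℝ} (hε : 0 < ε) {f : ℝ → ℂ} (hf : Hd b f) (j : ℕ) : Hd (b + j * ε) (Ai ε f j) := by
  have hF := Ai_Fa hε hf.1 j
  refine ⟨hF, ?_⟩
  refine Integrable.mono' hf.2 (Pool.Agent.Y23.G.Lg_cont.mul (gsq_cont hF)).aestronglyMeasurable
    (Eventually.of_forall fun v => ?_)
  have h0 : 0 ≤ Lg v := by linarith [one_le_Lg v]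
  show ‖Lg v * gsq (Ai ε f j) v‖ ≤ Lg v * gsq f v
  rw [norm_mul, Real.norm_of_nonneg h0, Real.norm_of_nonneg (gsq_nonneg _ v), gsq_Ai hε hf.1]
  refine mul_le_mul_of_nonneg_left ?_ h0
  have h1 : sq ε v ^ j ≤ 1 := pow_le_one₀ (sq_nonneg' _ _) (sq_le_one _ _)
  have h2 := gsq_nonneg f v
  show sq ε v ^ j * gsq f v ≤ gsq f v
  nlinarith

/-- the difference quotient -/
noncomputable def Df (ε : ℝ) (f : ℝ → ℂ) (x : ℝ) : ℂ := (f (x + -ε) - f (x + ε)) * ((2 * ε)⁻¹ : ℝ)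

lemma Df_Fa {ε b : ℝ} (hε : 0 < ε) {f : ℝ → ℂ} (hf : Fa b f) : Fa (b + ε) (Df ε f) := by
  have h1 : Fa (b + ε) (fun x => f (x + -ε)) := Fa_shift (L := zL) (by rw [abs_neg, abs_of_pos hε]) hf
  have h2 : Fa (b + ε) (fun x => f (x + ε)) := Fa_shift (L := zL) (by rw [abs_of_pos hε]) hf
  have h3 := (h1.sub h2).smul (((2 * ε)⁻¹ : ℝ) : ℂ)
  have e : Df ε f = fun x => (((2 * ε)⁻¹ : ℝ) : ℂ) * (f (x + -ε) - f (x + ε)) := by
    funext x
    unfold Df
    ring
  rw [e]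
  exact h3

lemma TT_Df {ε b : ℝ} (hε : 0 < ε) {f : ℝ → ℂ} (hf : Fa b f) (w : ℂ) : TT (Df ε f) w = TT f w * (w * sg ε w) := by
  have h1 : Fa (b + ε) (fun x => f (x + -ε)) := Fa_shift (L := zL) (by rw [abs_neg, abs_of_pos hε]) hf
  have h2 : Fa (b + ε) (fun x => f (x + ε)) := Fa_shift (L := zL) (by rw [abs_of_pos hε]) hf
  have e : Df ε f = fun x => (((2 * ε)⁻¹ : ℝ) : ℂ) * (f (x + -ε) - f (x + ε)) := by
    funext x
    unfold Df
    ring
  rw [e, Pool.Agent.Y23.TT_smul, Pool.Agent.Y23.TT_sub h1 h2, TT_shift (L := zL), TT_shift (L := zL), sg_mul hε]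
  have e2 : -(w * ((-ε : ℝ) : ℂ)) = w * ε := by push_cast; ring
  rw [e2]
  push_cast
  ring

/-- the iterated differences -/
noncomputable def Di (ε : ℝ) (f : ℝ → ℂ) : ℕ → ℝ → ℂ
  | 0 => f
  | j + 1 => Df ε (Di ε f j)

lemma Di_Fa {ε b : ℝ} (hε : 0 < ε) {f : ℝ → ℂ} (hf : Fa b f) : ∀ j : ℕ, Fa (b + j * ε) (Di ε f j)
  | 0 => by simpa [Di] using hf
  | j + 1 => by
    have h := Df_Fa hε (Di_Fa hε hf j)
    have e : b + j * ε + ε = b + ((j + 1 : ℕ) : ℝ) * ε := by push_cast; ring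
    rw [e] at h
    exact h

lemma TT_Di {ε b : ℝ} (hε : 0 < ε) {f : ℝ → ℂ} (hf : Fa b f) (w : ℂ) :
    ∀ j : ℕ, TT (Di ε f j) w = TT f w * (w * sg ε w) ^ j
  | 0 => by simp [Di]
  | j + 1 => by
    have h := TT_Df hε (Di_Fa hε hf j) w
    rw [TT_Di hε hf w j] at h
    rw [pow_succ, ← mul_assoc]
    exact h

lemma gsq_Di {ε b : ℝ} (hε : 0 < ε) {f : ℝ → ℂ} (hf : Fa b f) (j : ℕ) (v : ℝ) :
    gsq (Di ε f j) v = (v ^ 2 * sq ε v) ^ j * gsq f v := by
  unfold gsq sq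
  rw [TT_Di hε hf, norm_mul, norm_pow, norm_mul, sg_line hε, Complex.norm_real, norm_mul, Complex.norm_real,
    Complex.norm_I, mul_one, Real.norm_eq_abs, Real.norm_eq_abs, mul_pow, ← pow_mul, mul_comm j 2, pow_mul, mul_pow,
    sq_abs, sq_abs, mul_comm]

/-! ### The multiplier on the line -/

lemma one_sub_sq_le {ε v : ℝ} (h : |ε * v| ≤ 2) : 1 - sq ε v ≤ (ε * v) ^ 2 / 3 := by
  unfold sq
  set u : ℝ := ε * v
  have key : ∀ x : ℝ, 0 ≤ x → x ≤ 2 → 1 - Real.sinc x ^ 2 ≤ x ^ 2 / 3 := by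
    intro x hx hx2
    rcases hx.eq_or_lt with h0 | h0
    · rw [← h0, Real.sinc_zero]; norm_num
    · have h1 := Real.sin_gt_sub_cube h0
      have h2 : 1 - x ^ 2 / 6 ≤ Real.sinc x := by
        rw [Real.sinc_of_ne_zero h0.ne', le_div_iff₀ h0]
        nlinarith
      have h3 : 0 ≤ 1 - x ^ 2 / 6 := by nlinarith
      nlinarith [pow_le_pow_left₀ h3 h2 2, sq_nonneg (x ^ 2)]
  have h1 := key |u| (abs_nonneg u) h
  have h2 : Real.sinc |u| = Real.sinc u := by
    rcases abs_choice u with h | h <;> rw [h]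
    exact Real.sinc_neg u
  rw [h2, sq_abs] at h1
  exact h1

lemma le_one_sub_sq {ε v : ℝ} (h : |ε * v| ≤ Real.pi) : (ε * v) ^ 2 / 20 ≤ 1 - sq ε v := by
  unfold sq
  set u : ℝ := ε * v
  have key : ∀ x : ℝ, 0 ≤ x → x ≤ Real.pi → x ^ 2 / 20 ≤ 1 - Real.sinc x ^ 2 := by
    intro x hx hx2
    rcases hx.eq_or_lt with h0 | h0
    · rw [← h0, Real.sinc_zero]; norm_num
    · have hpi := Real.pi_pos
      have h1 : Real.cos (x / 2) ≤ 1 - 2 / Real.pi ^ 2 * (x / 2) ^ 2 :=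
        Real.cos_le_one_sub_mul_cos_sq (by rw [abs_of_pos (by linarith)]; linarith)
      have h2 : Real.sin (x / 2) ≤ x / 2 := Real.sin_le (by linarith)
      have h3 : 0 ≤ Real.cos (x / 2) := Real.cos_nonneg_of_neg_pi_div_two_le_of_le (by linarith) (by linarith)
      have h4 : Real.sin x = 2 * Real.sin (x / 2) * Real.cos (x / 2) := by
        rw [← Real.sin_two_mul]; congr 1; ring
      have h5 : Real.sin x ≤ x * Real.cos (x / 2) := by
        rw [h4]
        nlinarith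
      have h6 : Real.sinc x ≤ 1 - x ^ 2 / 20 := by
        rw [Real.sinc_of_ne_zero h0.ne', div_le_iff₀ h0]
        have h7 : 2 / Real.pi ^ 2 * (x / 2) ^ 2 = x ^ 2 / (2 * Real.pi ^ 2) := by field_simp
        have h8 : x ^ 2 / 20 ≤ x ^ 2 / (2 * Real.pi ^ 2) := by
          refine div_le_div_of_nonneg_left (sq_nonneg x) (by positivity) ?_
          have := Real.pi_lt_d2
          nlinarith
        rw [h7] at h1
        calc Real.sin x ≤ x * Real.cos (x / 2) := h5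
          _ ≤ x * (1 - x ^ 2 / 20) := mul_le_mul_of_nonneg_left (by linarith) hx
          _ = _ := by ring
      have h9 : 0 ≤ Real.sinc x := by
        rw [Real.sinc_of_ne_zero h0.ne']
        exact div_nonneg (Real.sin_nonneg_of_nonneg_of_le_pi hx hx2) hx
      have h10 := Real.sinc_le_one x
      nlinarith
  have h1 := key |u| (abs_nonneg u) h
  have h2 : Real.sinc |u| = Real.sinc u := by
    rcases abs_choice u with h | h <;> rw [h]
    exact Real.sinc_neg u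
  rw [h2, sq_abs] at h1
  exact h1

lemma sq_far {ε v : ℝ} (h : Real.pi < |ε * v|) : sq ε v ≤ 1 / 9 := by
  unfold sq
  set u : ℝ := ε * v
  have hpi := Real.pi_gt_three
  have hu : u ≠ 0 := by
    intro h0
    rw [h0, abs_zero] at h
    linarith
  rw [Real.sinc_of_ne_zero hu, div_pow, div_le_iff₀ (by positivity)]
  have h1 : Real.sin u ^ 2 ≤ 1 := Real.sin_sq_le_one u
  have h2 : 9 ≤ u ^ 2 := by
    rw [← sq_abs]
    nlinarith
  linarith

/-- the difference multiplier is bounded by the high-pass multiplier -/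
lemma diff_le {ε : ℝ} (hε : 0 < ε) (v : ℝ) : v ^ 2 * sq ε v ≤ 20 / ε ^ 2 * (1 - sq ε v) := by
  have e : ε ^ 2 * (v ^ 2 * sq ε v) = (ε * v) ^ 2 * sq ε v := by ring
  rw [div_mul_eq_mul_div, le_div_iff₀ (by positivity), mul_comm, e]
  have h0 := sq_nonneg' ε v
  have h1 := sq_le_one ε v
  rcases le_or_gt |ε * v| Real.pi with h | h
  · have h2 := le_one_sub_sq h
    have h3 : (ε * v) ^ 2 * sq ε v ≤ (ε * v) ^ 2 * 1 := mul_le_mul_of_nonneg_left h1 (sq_nonneg _)
    linarith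
  · have h2 := sq_far h
    have h3 : (ε * v) ^ 2 * sq ε v ≤ 1 := by
      unfold sq
      by_cases hu : ε * v = 0
      · rw [hu]; norm_num
      · rw [Real.sinc_of_ne_zero hu, div_pow, mul_div_cancel₀ _ (pow_ne_zero 2 hu)]
        exact Real.sin_sq_le_one _
    linarith

end Pool.Agent.Zk2.LW
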