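import Mathlib

/-! # The local Weil criterion: tails of the binomial distribution -/

set_option autoImplicit false

open Polynomial

namespace Pool.Agent.Zk2.LW

/-- the terms -/
def bt {R : Type} [CommRing R] (m : ℕ) (s : R) (k : ℕ) : R := ((2 * m + 1).choose k : R) * (s ^ k * (1 - s) ^ (2 * m + 1 - k))

/-- the lower tail -/
def lo {R : Type} [CommRing R] (m : ℕ) (s : R) : R := ∑ k ∈ Finset.range (m + 1), bt m s k

/-- the upper tail -/
def hi {R : Type} [CommRing R] (m : ℕ) (s : R) : R := ∑ k ∈ Finset.Ico (m + 1) (2 * m + 2), bt m s k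

lemma lo_add_hi {R : Type} [CommRing R] (m : ℕ) (s : R) : lo m s + hi m s = 1 := by
  unfold lo hi
  rw [Finset.sum_range_add_sum_Ico _ (by omega)]
  have h := add_pow s (1 - s) (2 * m + 1)
  rw [add_sub_cancel, one_pow] at h
  rw [h]
  refine Finset.sum_congr rfl fun k _ => ?_
  unfold bt
  ring

lemma choose_sum (m : ℕ) : ∑ k ∈ Finset.range (2 * m + 2), ((2 * m + 1).choose k : ℝ) = 2 ^ (2 * m + 1) := by
  have := Nat.sum_range_choose (2 * m + 1)
  exact_mod_cast this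

lemma bt_nonneg {m : ℕ} {s : ℝ} (h0 : 0 ≤ s) (h1 : s ≤ 1) (k : ℕ) : 0 ≤ bt m s k := by
  unfold bt
  have : 0 ≤ 1 - s := by linarith
  positivity

lemma lo_nonneg {m : ℕ} {s : ℝ} (h0 : 0 ≤ s) (h1 : s ≤ 1) : 0 ≤ lo m s :=
  Finset.sum_nonneg fun k _ => bt_nonneg h0 h1 k

lemma hi_nonneg {m : ℕ} {s : ℝ} (h0 : 0 ≤ s) (h1 : s ≤ 1) : 0 ≤ hi m s :=
  Finset.sum_nonneg fun k _ => bt_nonneg h0 h1 k

lemma lo_le_one {m : ℕ} {s : ℝ} (h0 : 0 ≤ s) (h1 : s ≤ 1) : lo m s ≤ 1 := by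
  have := lo_add_hi m s
  linarith [hi_nonneg (m := m) h0 h1]

lemma pow_le_lo {m : ℕ} {s : ℝ} (h0 : 0 ≤ s) (h1 : s ≤ 1) : (1 - s) ^ (m + 1) ≤ lo m s := by
  have h2 : 0 ≤ 1 - s := by linarith
  have h3 := add_pow s (1 - s) m
  rw [add_sub_cancel, one_pow] at h3
  calc (1 - s) ^ (m + 1) = ∑ k ∈ Finset.range (m + 1), (1 - s) ^ (m + 1) * (s ^ k * (1 - s) ^ (m - k) * (m.choose k : ℝ)) := by
        rw [← Finset.mul_sum, ← h3, mul_one]
    _ ≤ lo m s := by
        refine Finset.sum_le_sum fun k hk => ?_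
        have hk' : k ≤ m := by
          have := Finset.mem_range.1 hk
          omega
        unfold bt
        have e : (1 - s) ^ (2 * m + 1 - k) = (1 - s) ^ (m + 1) * (1 - s) ^ (m - k) := by
          rw [← pow_add]; congr 1; omega
        rw [e]
        have h4 : (m.choose k : ℝ) ≤ ((2 * m + 1).choose k : ℝ) := by
          exact_mod_cast Nat.choose_le_choose k (by omega)
        calc (1 - s) ^ (m + 1) * (s ^ k * (1 - s) ^ (m - k) * (m.choose k : ℝ))
            = (m.choose k : ℝ) * (s ^ k * ((1 - s) ^ (m + 1) * (1 - s) ^ (m - k))) := by ring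
          _ ≤ _ := mul_le_mul_of_nonneg_right h4 (by positivity)

lemma lo_le {m : ℕ} {s : ℝ} (h0 : 0 ≤ s) (h1 : s ≤ 1) : lo m s ≤ 4 ^ (m + 1) * (1 - s) ^ (m + 1) := by
  have h2 : 0 ≤ 1 - s := by linarith
  have h3 : 1 - s ≤ 1 := by linarith
  calc lo m s ≤ ∑ k ∈ Finset.range (m + 1), ((2 * m + 1).choose k : ℝ) * (1 - s) ^ (m + 1) := by
        refine Finset.sum_le_sum fun k hk => ?_
        have hk' : k ≤ m := by
          have := Finset.mem_range.1 hk
          omega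
        unfold bt
        refine mul_le_mul_of_nonneg_left ?_ (by positivity)
        have h4 : s ^ k ≤ 1 := pow_le_one₀ h0 h1
        have h5 : (1 - s) ^ (2 * m + 1 - k) ≤ (1 - s) ^ (m + 1) := pow_le_pow_of_le_one h2 h3 (by omega)
        have h6 : 0 ≤ (1 - s) ^ (2 * m + 1 - k) := by positivity
        nlinarith
    _ ≤ ∑ k ∈ Finset.range (2 * m + 2), ((2 * m + 1).choose k : ℝ) * (1 - s) ^ (m + 1) := by
        refine Finset.sum_le_sum_of_subset_of_nonneg (Finset.range_mono (by omega)) fun k _ _ => by positivity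
    _ = 2 ^ (2 * m + 1) * (1 - s) ^ (m + 1) := by rw [← Finset.sum_mul, choose_sum]
    _ ≤ _ := by
        refine mul_le_mul_of_nonneg_right ?_ (by positivity)
        have : (4 : ℝ) ^ (m + 1) = 2 ^ (2 * m + 2) := by
          rw [show (4 : ℝ) = 2 ^ 2 by norm_num, ← pow_mul]; congr 1
        rw [this]
        exact pow_le_pow_right₀ (by norm_num) (by omega)

lemma norm_hi_le {m : ℕ} {s : ℂ} (h : ‖s‖ ≤ 1) : ‖hi m s‖ ≤ 8 ^ (m + 1) * ‖s‖ ^ (m + 1) := by
  have h1 : ‖1 - s‖ ≤ 2 := by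
    refine (norm_sub_le _ _).trans ?_
    rw [norm_one]; linarith
  calc ‖hi m s‖ ≤ ∑ k ∈ Finset.Ico (m + 1) (2 * m + 2), ((2 * m + 1).choose k : ℝ) * (2 ^ (m + 1) * ‖s‖ ^ (m + 1)) := by
        refine norm_sum_le_of_le _ fun k hk => ?_
        rw [Finset.mem_Ico] at hk
        unfold bt
        rw [norm_mul, norm_mul, norm_pow, norm_pow, Complex.norm_natCast]
        refine mul_le_mul_of_nonneg_left ?_ (by positivity)
        have h2 : ‖s‖ ^ k ≤ ‖s‖ ^ (m + 1) := pow_le_pow_of_le_one (norm_nonneg _) h hk.1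
        have h3 : ‖1 - s‖ ^ (2 * m + 1 - k) ≤ 2 ^ (m + 1) :=
          (pow_le_pow_left₀ (norm_nonneg _) h1 _).trans (pow_le_pow_right₀ (by norm_num) (by omega))
        calc ‖s‖ ^ k * ‖1 - s‖ ^ (2 * m + 1 - k) ≤ ‖s‖ ^ (m + 1) * 2 ^ (m + 1) :=
              mul_le_mul h2 h3 (by positivity) (by positivity)
          _ = _ := mul_comm _ _
    _ ≤ ∑ k ∈ Finset.range (2 * m + 2), ((2 * m + 1).choose k : ℝ) * (2 ^ (m + 1) * ‖s‖ ^ (m + 1)) := by
        refine Finset.sum_le_sum_of_subset_of_nonneg (fun k hk => ?_) fun k _ _ => by positivity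
        rw [Finset.mem_Ico] at hk
        exact Finset.mem_range.2 hk.2
    _ = 2 ^ (2 * m + 1) * (2 ^ (m + 1) * ‖s‖ ^ (m + 1)) := by rw [← Finset.sum_mul, choose_sum]
    _ ≤ 2 ^ (2 * m + 2) * (2 ^ (m + 1) * ‖s‖ ^ (m + 1)) := by
        refine mul_le_mul_of_nonneg_right ?_ (by positivity)
        exact pow_le_pow_right₀ (by norm_num) (by omega)
    _ = _ := by
        rw [← mul_assoc, ← pow_add]
        congr 1
        rw [show (8 : ℝ) = 2 ^ 3 by norm_num, ← pow_mul]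
        congr 1
        omega

lemma norm_lo_le {m : ℕ} {s : ℂ} (h : ‖1 - s‖ ≤ 1) : ‖lo m s‖ ≤ 8 ^ (m + 1) * ‖1 - s‖ ^ (m + 1) := by
  have h1 : ‖s‖ ≤ 2 := by
    have : s = 1 - (1 - s) := by ring
    rw [this]
    refine (norm_sub_le _ _).trans ?_
    rw [norm_one]; linarith
  calc ‖lo m s‖ ≤ ∑ k ∈ Finset.range (m + 1), ((2 * m + 1).choose k : ℝ) * (2 ^ (m + 1) * ‖1 - s‖ ^ (m + 1)) := by
        refine norm_sum_le_of_le _ fun k hk => ?_
        rw [Finset.mem_range] at hk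
        unfold bt
        rw [norm_mul, norm_mul, norm_pow, norm_pow, Complex.norm_natCast]
        refine mul_le_mul_of_nonneg_left ?_ (by positivity)
        have h2 : ‖1 - s‖ ^ (2 * m + 1 - k) ≤ ‖1 - s‖ ^ (m + 1) := pow_le_pow_of_le_one (norm_nonneg _) h (by omega)
        have h3 : ‖s‖ ^ k ≤ 2 ^ (m + 1) :=
          (pow_le_pow_left₀ (norm_nonneg _) h1 _).trans (pow_le_pow_right₀ (by norm_num) (by omega))
        exact mul_le_mul h3 h2 (by positivity) (by positivity)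
    _ ≤ ∑ k ∈ Finset.range (2 * m + 2), ((2 * m + 1).choose k : ℝ) * (2 ^ (m + 1) * ‖1 - s‖ ^ (m + 1)) := by
        refine Finset.sum_le_sum_of_subset_of_nonneg (Finset.range_mono (by omega)) fun k _ _ => by positivity
    _ = 2 ^ (2 * m + 1) * (2 ^ (m + 1) * ‖1 - s‖ ^ (m + 1)) := by rw [← Finset.sum_mul, choose_sum]
    _ ≤ 2 ^ (2 * m + 2) * (2 ^ (m + 1) * ‖1 - s‖ ^ (m + 1)) := by
        refine mul_le_mul_of_nonneg_right ?_ (by positivity)
        exact pow_le_pow_right₀ (by norm_num) (by omega)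
    _ = _ := by
        rw [← mul_assoc, ← pow_add]
        congr 1
        rw [show (8 : ℝ) = 2 ^ 3 by norm_num, ← pow_mul]
        congr 1
        omega

/-! ### The polynomials -/

lemma bt_map {R S : Type} [CommRing R] [CommRing S] (φ : R →+* S) (m : ℕ) (s : R) (k : ℕ) :
    φ (bt m s k) = bt m (φ s) k := by
  unfold bt
  simp

lemma lo_map {R S : Type} [CommRing R] [CommRing S] (φ : R →+* S) (m : ℕ) (s : R) : φ (lo m s) = lo m (φ s) := by
  unfold lo
  rw [map_sum]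
  exact Finset.sum_congr rfl fun k _ => bt_map φ m s k

lemma hi_map {R S : Type} [CommRing R] [CommRing S] (φ : R →+* S) (m : ℕ) (s : R) : φ (hi m s) = hi m (φ s) := by
  unfold hi
  rw [map_sum]
  exact Finset.sum_congr rfl fun k _ => bt_map φ m s k

lemma bt_deg (m k : ℕ) (hk : k ≤ 2 * m + 1) : (bt m (X : ℝ[X]) k).natDegree < 2 * m + 2 := by
  unfold bt
  have h1 : ((2 * m + 1).choose k : ℝ[X]) = C ((2 * m + 1).choose k : ℝ) := by simp
  rw [h1]
  have h2 : (X ^ k * (1 - X) ^ (2 * m + 1 - k) : ℝ[X]).natDegree ≤ k + (2 * m + 1 - k) * 1 := by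
    refine natDegree_mul_le.trans (add_le_add (natDegree_X_pow_le _) ?_)
    refine natDegree_pow_le.trans (Nat.mul_le_mul_left _ ?_)
    exact (natDegree_sub_le _ _).trans (by simp)
  have h3 := natDegree_C_mul_le ((2 * m + 1).choose k : ℝ) (X ^ k * (1 - X) ^ (2 * m + 1 - k))
  omega

lemma lo_deg (m : ℕ) : (lo m (X : ℝ[X])).natDegree < 2 * m + 2 := by
  have h : (lo m (X : ℝ[X])).natDegree ≤ 2 * m + 1 := by
    unfold lo
    refine natDegree_sum_le_of_forall_le _ _ fun k hk => ?_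
    have := bt_deg m k (by have := Finset.mem_range.1 hk; omega)
    omega
  omega

lemma hi_deg (m : ℕ) : (hi m (X : ℝ[X])).natDegree < 2 * m + 2 := by
  have h : (hi m (X : ℝ[X])).natDegree ≤ 2 * m + 1 := by
    unfold hi
    refine natDegree_sum_le_of_forall_le _ _ fun k hk => ?_
    have := bt_deg m k (by have := (Finset.mem_Ico.1 hk).2; omega)
    omega
  omega

/-- the coefficients -/
noncomputable def lc (m j : ℕ) : ℝ := (lo m (X : ℝ[X])).coeff j

/-- the coefficients -/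
noncomputable def hc (m j : ℕ) : ℝ := (hi m (X : ℝ[X])).coeff j

lemma lo_real (m : ℕ) (s : ℝ) : ∑ j ∈ Finset.range (2 * m + 2), lc m j * s ^ j = lo m s := by
  have h1 := eval_eq_sum_range' (lo_deg m) s
  have h2 := lo_map (evalRingHom s) m (X : ℝ[X])
  simp only [coe_evalRingHom, eval_X] at h2
  rw [← h2, h1]
  rfl

lemma hi_real (m : ℕ) (s : ℝ) : ∑ j ∈ Finset.range (2 * m + 2), hc m j * s ^ j = hi m s := by
  have h1 := eval_eq_sum_range' (hi_deg m) s
  have h2 := hi_map (evalRingHom s) m (X : ℝ[X])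
  simp only [coe_evalRingHom, eval_X] at h2
  rw [← h2, h1]
  rfl

lemma lo_complex (m : ℕ) (s : ℂ) : ∑ j ∈ Finset.range (2 * m + 2), (lc m j : ℂ) * s ^ j = lo m s := by
  have h1 := eval₂_eq_sum_range' (Complex.ofRealHom) (lo_deg m) s
  have h2 := lo_map (eval₂RingHom Complex.ofRealHom s) m (X : ℝ[X])
  simp only [coe_eval₂RingHom, eval₂_X] at h2
  rw [← h2, h1]
  rfl

lemma hi_complex (m : ℕ) (s : ℂ) : ∑ j ∈ Finset.range (2 * m + 2), (hc m j : ℂ) * s ^ j = hi m s := by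
  have h1 := eval₂_eq_sum_range' (Complex.ofRealHom) (hi_deg m) s
  have h2 := hi_map (eval₂RingHom Complex.ofRealHom s) m (X : ℝ[X])
  simp only [coe_eval₂RingHom, eval₂_X] at h2
  rw [← h2, h1]
  rfl

lemma lc_add_hc (m j : ℕ) : lc m j + hc m j = if j = 0 then 1 else 0 := by
  unfold lc hc
  rw [← coeff_add, lo_add_hi, coeff_one]

lemma sum_split (m : ℕ) (q : ℕ → ℝ) : q 0 = (∑ j ∈ Finset.range (2 * m + 2), hc m j * q j) +
    ∑ j ∈ Finset.range (2 * m + 2), lc m j * q j := by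
  rw [← Finset.sum_add_distrib]
  have : ∀ j ∈ Finset.range (2 * m + 2), hc m j * q j + lc m j * q j = if j = 0 then q 0 else 0 := by
    intro j _
    rw [← add_mul, add_comm (hc m j), lc_add_hc]
    split_ifs with h
    · rw [h, one_mul]
    · rw [zero_mul]
  rw [Finset.sum_congr rfl this, Finset.sum_ite_eq' , if_pos (Finset.mem_range.2 (by omega))]

end Pool.Agent.Zk2.LW
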