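import Pool.Agent.Zk2.LW.A
import Pool.Agent.Zk2.LW.B

/-! # The local Weil criterion: the side of the zeros -/

set_option autoImplicit false
set_option maxHeartbeats 1000000

open Complex Filter Topology Set MeasureTheory
open scoped ComplexConjugate

namespace Pool.Agent.Zk2.LW

open Pool.Agent.Y23 (TT Fa N2 plancherel N2_nonneg norm_TT_le)
open Pool.Agent.Y23.G (gsq gsq_nonneg gsq_cont gsq_int CC CC_zero Fa_shift Lg one_le_Lg Hd TT_shift GG GG_line QQ QB QB_self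
  summable_GG Dom dom_of_Hd Zt mu ZD ZC zsummable half_re rfZ rfZ_sub)
open Pool.Agent.Zk2.WP (Av sg Av_Fa TT_Av zL)

lemma GG_Ai {ε b : ℝ} (hε : 0 < ε) {f : ℝ → ℂ} (hf : Fa b f) (j : ℕ) (w : ℂ) :
    GG (Ai ε f j) (Ai ε f j) w = GG f f w * (sg ε w ^ 2) ^ j := by
  unfold GG
  rw [TT_Ai hε hf, TT_Ai hε hf, map_mul, map_pow, sg_conj hε]
  ring

/-- the multiplier far from the real axis -/
lemma sg_far' {ε : ℝ} (hε : 0 < ε) (hε1 : ε ≤ 1 / 2) {w : ℂ} (hw : |w.re| ≤ 1) : ‖w‖ * ‖sg ε w‖ ≤ 2 / ε := by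
  rw [← norm_mul, sg_mul hε, norm_div, norm_mul, Complex.norm_two, Complex.norm_real, Real.norm_of_nonneg hε.le]
  have h5 : Real.exp (1 / 2) ≤ 2 := by
    have h6 := Real.exp_one_lt_d9
    have h7 : Real.exp (1 / 2) * Real.exp (1 / 2) = Real.exp 1 := by rw [← Real.exp_add]; norm_num
    have h8 := Real.exp_pos (1 / 2)
    nlinarith
  have h9 : |(w * ε).re| ≤ 1 / 2 := by
    have : (w * (ε : ℂ)).re = w.re * ε := by simp
    rw [this, abs_mul, abs_of_pos hε]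
    calc |w.re| * ε ≤ 1 * (1 / 2) := mul_le_mul hw hε1 hε.le (by norm_num)
      _ = 1 / 2 := by norm_num
  have h6 : ‖cexp (w * ε) - cexp (-(w * ε))‖ ≤ 4 := by
    refine (norm_sub_le _ _).trans ?_
    rw [Complex.norm_exp, Complex.norm_exp, Complex.neg_re]
    have h7 : Real.exp (w * ε).re ≤ Real.exp (1 / 2) := Real.exp_le_exp.2 ((le_abs_self _).trans h9)
    have h8 : Real.exp (-(w * ε).re) ≤ Real.exp (1 / 2) := Real.exp_le_exp.2 ((neg_le_abs _).trans h9)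
    linarith
  calc ‖cexp (w * ε) - cexp (-(w * ε))‖ / (2 * ε) ≤ 4 / (2 * ε) := div_le_div_of_nonneg_right h6 (by positivity)
    _ = 2 / ε := by ring

section
variable [D : ZD] [EC : ZC]

/-- the high part of the form, over the zeros -/
lemma hi_sum {a ε : ℝ} (ha : 0 < a) (hε : 0 < ε) {f : ℝ → ℂ} (hf : Hd a f) (m : ℕ) :
    HasSum (fun ρ : Zt => (mu ρ : ℂ) * (GG f f ((ρ : ℂ) - 1 / 2) * hi m (sg ε ((ρ : ℂ) - 1 / 2) ^ 2)))
      ((∑ j ∈ Finset.range (2 * m + 2), hc m j * QQ (Ai ε f j) : ℝ) : ℂ) := by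
  have h1 : ∀ j ∈ Finset.range (2 * m + 2), HasSum (fun ρ : Zt => (hc m j : ℂ) * ((mu ρ : ℂ) *
      GG (Ai ε f j) (Ai ε f j) ((ρ : ℂ) - 1 / 2))) ((hc m j : ℂ) * (QQ (Ai ε f j) : ℂ)) := by
    intro j _
    obtain ⟨C, _, h⟩ := dom_of_Hd (D := D) (show 0 < a + j * ε by positivity)
    have hD := (h _ (Hd_Ai hε hf j)).1
    have h2 := (summable_GG hD hD).hasSum
    have h3 := QB_self hD
    unfold QB at h3
    rw [h3] at h2
    exact h2.mul_left _
  have h2 := hasSum_sum h1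
  have e1 : ∑ j ∈ Finset.range (2 * m + 2), (hc m j : ℂ) * (QQ (Ai ε f j) : ℂ) =
      ((∑ j ∈ Finset.range (2 * m + 2), hc m j * QQ (Ai ε f j) : ℝ) : ℂ) := by push_cast; rfl
  rw [e1] at h2
  convert h2 using 1
  funext ρ
  rw [← hi_complex, Finset.mul_sum, Finset.mul_sum]
  refine Finset.sum_congr rfl fun j _ => ?_
  rw [GG_Ai hε hf.1]
  ring

lemma norm_GG {a : ℝ} (ha : 0 < a) {f : ℝ → ℂ} (hf : Fa a f) {w : ℂ} {K : ℝ} (hw : |w.re| ≤ K) :
    ‖GG f f w‖ ≤ 2 * a * Real.exp (2 * a * K) * N2 f := by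
  have h1 := norm_TT_le ha hf w
  have h2 := norm_TT_le ha hf (-conj w)
  have e : |(-conj w).re| = |w.re| := by simp
  rw [e] at h2
  have h3 : 2 * a * Real.exp (2 * a * |w.re|) * N2 f ≤ 2 * a * Real.exp (2 * a * K) * N2 f := by
    refine mul_le_mul_of_nonneg_right (mul_le_mul_of_nonneg_left (Real.exp_le_exp.2 ?_) (by positivity)) (N2_nonneg f)
    exact mul_le_mul_of_nonneg_left hw (by positivity)
  unfold GG
  rw [norm_mul, RCLike.norm_conj]
  nlinarith [sq_nonneg (‖TT f w‖ - ‖TT f (-conj w)‖)]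

/-- the lower bound of the high part -/
theorem zero_side {a ε T : ℝ} (ha : 0 < a) (hε : 0 < ε) (hε1 : ε ≤ 1 / 2) (hT : 2 / ε ≤ T) {f : ℝ → ℂ} (hf : Hd a f)
    (m : ℕ) (hz : ∀ ρ : Zt, 1 / 2 < (ρ : ℂ).re → |(ρ : ℂ).im| ≤ T → TT f ((ρ : ℂ) - 1 / 2) = 0) :
    -(2 * a * Real.exp (2 * a) * N2 f * ((32 / (ε ^ 2 * T ^ 2)) ^ m * (64 / ε ^ 2)) *
      ∑' ρ : Zt, (mu ρ : ℝ) * (1 / (1 + (ρ : ℂ).im ^ 2))) ≤ ∑ j ∈ Finset.range (2 * m + 2), hc m j * QQ (Ai ε f j) := by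
  have hT2 : 4 ≤ T := by
    refine le_trans ?_ hT
    rw [le_div_iff₀ hε]
    linarith
  have hT0 : 0 < T := by linarith
  set K : ℝ := 2 * a * Real.exp (2 * a) * N2 f * ((32 / (ε ^ 2 * T ^ 2)) ^ m * (64 / ε ^ 2)) with hK
  have hN := N2_nonneg f
  have hK0 : 0 ≤ K := by positivity
  have h1 := Complex.hasSum_re (hi_sum ha hε hf m)
  rw [Complex.ofReal_re] at h1
  have hsz := zsummable (D := D) 0
  simp only [sub_zero] at hsz
  have h2 := (hsz.hasSum.mul_left K).neg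
  refine hasSum_le (fun ρ => ?_) h2 h1
  have hμ : (0 : ℝ) ≤ mu ρ := Nat.cast_nonneg _
  set w : ℂ := (ρ : ℂ) - 1 / 2 with hw
  have wim : w.im = (ρ : ℂ).im := by rw [hw]; simp
  have wre : w.re = (ρ : ℂ).re - 1 / 2 := by rw [hw]; simp
  have hbase : 0 ≤ K * ((mu ρ : ℝ) * (1 / (1 + (ρ : ℂ).im ^ 2))) := by positivity
  have ecast : (mu ρ : ℂ) * (GG f f w * hi m (sg ε w ^ 2)) =
      ((mu ρ : ℝ) : ℂ) * (GG f f w * hi m (sg ε w ^ 2)) := by push_cast; rfl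
  rw [ecast, Complex.re_ofReal_mul]
  rcases le_or_gt |(ρ : ℂ).im| T with h | h
  · -- low zeros
    have h3 : 0 ≤ (GG f f w * hi m (sg ε w ^ 2)).re := by
      rcases lt_trichotomy ((ρ : ℂ).re) (1 / 2) with h4 | h4 | h4
      · have h5 : TT f (-conj w) = 0 := by
          rw [hw, ← rfZ_sub]
          refine hz (rfZ ρ) ?_ ?_
          · show 1 / 2 < (1 - conj (ρ : ℂ)).re
            simp only [Complex.sub_re, Complex.one_re, Complex.conj_re]
            linarith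
          · show |(1 - conj (ρ : ℂ)).im| ≤ T
            simpa using h
        unfold GG
        rw [h5, map_zero, mul_zero, zero_mul, Complex.zero_re]
      · have h5 : w = (w.im : ℂ) * I := by
          apply Complex.ext
          · simp [wre, h4]
          · simp
        have h6 : GG f f w = ((‖TT f (w.im * I)‖ ^ 2 : ℝ) : ℂ) := by
          have := GG_line f w.im
          rw [← this]
          congr 1
          apply Complex.ext
          · simp [wre, h4]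
          · simp
        have h7 : sg ε w ^ 2 = ((sq ε w.im : ℝ) : ℂ) := by
          conv_lhs => rw [h5]
          rw [sg_line hε]
          unfold sq
          push_cast
          rfl
        have h8 : hi m ((sq ε w.im : ℝ) : ℂ) = ((hi m (sq ε w.im) : ℝ) : ℂ) :=
          (hi_map Complex.ofRealHom m (sq ε w.im)).symm
        rw [h6, h7, h8, ← Complex.ofReal_mul, Complex.ofReal_re]
        exact mul_nonneg (sq_nonneg _) (hi_nonneg (sq_nonneg' _ _) (sq_le_one _ _))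
      · have h5 : TT f w = 0 := hz ρ h4 h
        unfold GG
        rw [h5, zero_mul, zero_mul, Complex.zero_re]
    have := mul_nonneg hμ h3
    linarith
  · -- high zeros
    have hw1 : |w.re| ≤ 1 := half_re ρ
    have hγ : T < ‖w‖ := by
      rw [← wim] at h
      exact h.trans_le (Complex.abs_im_le_norm w)
    have h3 := sg_far' hε hε1 hw1
    have hγ0 : 0 < |(ρ : ℂ).im| := by linarith
    have h4 : ‖sg ε w‖ ≤ 2 / (ε * |(ρ : ℂ).im|) := by
      rw [le_div_iff₀ (by positivity)]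
      rw [le_div_iff₀ hε] at h3
      have h5 : |(ρ : ℂ).im| ≤ ‖w‖ := by
        rw [← wim]
        exact Complex.abs_im_le_norm w
      calc ‖sg ε w‖ * (ε * |(ρ : ℂ).im|) = |(ρ : ℂ).im| * ‖sg ε w‖ * ε := by ring
        _ ≤ ‖w‖ * ‖sg ε w‖ * ε := by gcongr
        _ ≤ 2 := h3
    have h5 : ‖sg ε w ^ 2‖ ≤ 4 / (ε ^ 2 * (ρ : ℂ).im ^ 2) := by
      rw [norm_pow]
      calc ‖sg ε w‖ ^ 2 ≤ (2 / (ε * |(ρ : ℂ).im|)) ^ 2 := pow_le_pow_left₀ (norm_nonneg _) h4 2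
        _ = _ := by rw [div_pow, mul_pow, sq_abs]; norm_num
    have hεT : 2 ≤ ε * T := by
      rw [div_le_iff₀ hε] at hT
      linarith
    have h6 : T ^ 2 ≤ (ρ : ℂ).im ^ 2 := by
      rw [← sq_abs (ρ : ℂ).im]
      exact pow_le_pow_left₀ hT0.le h.le 2
    have hγ2 : 0 < (ρ : ℂ).im ^ 2 := lt_of_lt_of_le (by positivity) h6
    have h7 : ‖sg ε w ^ 2‖ ≤ 1 := by
      refine h5.trans ?_
      rw [div_le_one (by positivity)]
      nlinarith [mul_le_mul_of_nonneg_left h6 (sq_nonneg ε)]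
    have h8 := norm_hi_le (m := m) h7
    have h9 : ‖hi m (sg ε w ^ 2)‖ ≤ (32 / (ε ^ 2 * T ^ 2)) ^ m * (64 / ε ^ 2) * (1 / (1 + (ρ : ℂ).im ^ 2)) := by
      refine h8.trans ?_
      rw [← mul_pow, pow_succ]
      have k1 : 8 * ‖sg ε w ^ 2‖ ≤ 32 / (ε ^ 2 * T ^ 2) := by
        calc 8 * ‖sg ε w ^ 2‖ ≤ 8 * (4 / (ε ^ 2 * (ρ : ℂ).im ^ 2)) := by linarith
          _ = 32 / (ε ^ 2 * (ρ : ℂ).im ^ 2) := by ring
          _ ≤ 32 / (ε ^ 2 * T ^ 2) := div_le_div_of_nonneg_left (by norm_num) (by positivity)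
              (mul_le_mul_of_nonneg_left h6 (by positivity))
      have k2 : 8 * ‖sg ε w ^ 2‖ ≤ (64 / ε ^ 2) * (1 / (1 + (ρ : ℂ).im ^ 2)) := by
        calc 8 * ‖sg ε w ^ 2‖ ≤ 8 * (4 / (ε ^ 2 * (ρ : ℂ).im ^ 2)) := by linarith
          _ = (64 / ε ^ 2) * (1 / (2 * (ρ : ℂ).im ^ 2)) := by field_simp; norm_num
          _ ≤ (64 / ε ^ 2) * (1 / (1 + (ρ : ℂ).im ^ 2)) := by
              refine mul_le_mul_of_nonneg_left ?_ (by positivity)
              exact div_le_div_of_nonneg_left (by norm_num) (by positivity) (by nlinarith)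
      calc (8 * ‖sg ε w ^ 2‖) ^ m * (8 * ‖sg ε w ^ 2‖) ≤
          (32 / (ε ^ 2 * T ^ 2)) ^ m * ((64 / ε ^ 2) * (1 / (1 + (ρ : ℂ).im ^ 2))) :=
            mul_le_mul (pow_le_pow_left₀ (by positivity) k1 m) k2 (by positivity) (by positivity)
        _ = _ := by ring
    have h10 := norm_GG ha hf.1 hw1
    rw [mul_one] at h10
    have h11 : ‖GG f f w * hi m (sg ε w ^ 2)‖ ≤ K * (1 / (1 + (ρ : ℂ).im ^ 2)) := by
      rw [norm_mul]
      calc ‖GG f f w‖ * ‖hi m (sg ε w ^ 2)‖ ≤ (2 * a * Real.exp (2 * a) * N2 f) *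
            ((32 / (ε ^ 2 * T ^ 2)) ^ m * (64 / ε ^ 2) * (1 / (1 + (ρ : ℂ).im ^ 2))) :=
              mul_le_mul h10 h9 (norm_nonneg _) (by positivity)
        _ = _ := by rw [hK]; ring
    have h12 := (Complex.abs_re_le_norm (GG f f w * hi m (sg ε w ^ 2))).trans h11
    have h13 := neg_le_of_abs_le h12
    calc -(K * ((mu ρ : ℝ) * (1 / (1 + (ρ : ℂ).im ^ 2)))) = (mu ρ : ℝ) * (-(K * (1 / (1 + (ρ : ℂ).im ^ 2)))) := by ring
      _ ≤ _ := mul_le_mul_of_nonneg_left h13 hμ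

end

end Pool.Agent.Zk2.LW
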