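import Pool.Agent.Zk2.LW.C

/-! # The local Weil criterion: the side of the primes -/

set_option autoImplicit false
set_option linter.unusedSectionVars false
set_option maxHeartbeats 1000000

open Complex Filter Topology Set MeasureTheory
open scoped ComplexConjugate

namespace Pool.Agent.Zk2.LW

open Pool.Agent.Y23 (TT Fa N2 plancherel N2_nonneg norm_TT_le)
open Pool.Agent.Y23.G (gsq gsq_nonneg gsq_cont gsq_int CC CC_zero Fa_shift Lg one_le_Lg Hd TT_shift GG GG_line QQ four_one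
  weil aL GD GD_cont GD_bd LFun)
open Pool.Agent.Zk2.WP (Av sg Av_Fa TT_Av sg_sub)

/-- the high-pass density -/
noncomputable def Pf (ε : ℝ) (m : ℕ) (f : ℝ → ℂ) (v : ℝ) : ℝ := lo m (sq ε v) * gsq f v

lemma Pf_nonneg (ε : ℝ) (m : ℕ) (f : ℝ → ℂ) (v : ℝ) : 0 ≤ Pf ε m f v :=
  mul_nonneg (lo_nonneg (sq_nonneg' _ _) (sq_le_one _ _)) (gsq_nonneg _ _)

lemma Pf_le (ε : ℝ) (m : ℕ) (f : ℝ → ℂ) (v : ℝ) : Pf ε m f v ≤ gsq f v := by
  unfold Pf
  have h1 := lo_le_one (m := m) (sq_nonneg' ε v) (sq_le_one ε v)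
  have h2 := gsq_nonneg f v
  nlinarith

lemma Pf_eq {ε b : ℝ} (hε : 0 < ε) {f : ℝ → ℂ} (hf : Fa b f) (m : ℕ) (v : ℝ) :
    Pf ε m f v = ∑ j ∈ Finset.range (2 * m + 2), lc m j * gsq (Ai ε f j) v := by
  unfold Pf
  rw [← lo_real, Finset.sum_mul]
  refine Finset.sum_congr rfl fun j _ => ?_
  rw [gsq_Ai hε hf]
  ring

lemma Pf_cont {ε b : ℝ} (hε : 0 < ε) {f : ℝ → ℂ} (hf : Fa b f) (m : ℕ) : Continuous (Pf ε m f) := by
  have : Pf ε m f = fun v => ∑ j ∈ Finset.range (2 * m + 2), lc m j * gsq (Ai ε f j) v := funext fun v => Pf_eq hε hf m v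
  rw [this]
  exact continuous_finset_sum _ fun j _ => (gsq_cont (Ai_Fa hε hf j)).const_mul _ |>.congr fun _ => rfl

lemma Pf_int {ε b : ℝ} (hε : 0 < ε) {f : ℝ → ℂ} (hf : Fa b f) (m : ℕ) : Integrable (Pf ε m f) :=
  Integrable.mono' (gsq_int hf) (Pf_cont hε hf m).aestronglyMeasurable (Eventually.of_forall fun v => by
    rw [Real.norm_of_nonneg (Pf_nonneg _ _ _ _)]
    exact Pf_le _ _ _ _)

lemma Hd_mono {a b : ℝ} {f : ℝ → ℂ} (hf : Hd a f) (h : a ≤ b) : Hd b f := ⟨hf.1.mono h, hf.2⟩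

section
variable [L : LFun]

lemma GD_int {a : ℝ} {f : ℝ → ℂ} (hf : Hd a f) : Integrable (fun v : ℝ => GD (L := L) v * gsq f v) := by
  obtain ⟨C, hC, h⟩ := GD_bd (L := L)
  refine Integrable.mono' (hf.2.const_mul C) (GD_cont.mul (gsq_cont hf.1)).aestronglyMeasurable
    (Eventually.of_forall fun v => ?_)
  rw [norm_mul, Real.norm_of_nonneg (gsq_nonneg f v), Real.norm_eq_abs]
  show |GD v| * gsq f v ≤ C * (Lg v * gsq f v)
  rw [← mul_assoc]
  exact mul_le_mul_of_nonneg_right (h v).1 (gsq_nonneg f v)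

lemma GD_Pf_int {a ε : ℝ} (hε : 0 < ε) {f : ℝ → ℂ} (hf : Hd a f) (m : ℕ) :
    Integrable (fun v : ℝ => GD (L := L) v * Pf ε m f v) := by
  refine Integrable.mono' (GD_int (L := L) hf).norm (GD_cont.mul (Pf_cont hε hf.1 m)).aestronglyMeasurable
    (Eventually.of_forall fun v => ?_)
  rw [norm_mul, norm_mul, Real.norm_of_nonneg (gsq_nonneg f v), Real.norm_of_nonneg (Pf_nonneg _ _ _ _)]
  exact mul_le_mul_of_nonneg_left (Pf_le _ _ _ _) (norm_nonneg _)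

lemma sum_GD {a ε : ℝ} (hε : 0 < ε) {f : ℝ → ℂ} (hf : Hd a f) (m : ℕ) :
    ∑ j ∈ Finset.range (2 * m + 2), lc m j * (∫ v : ℝ, GD (L := L) v * ‖TT (Ai ε f j) (v * I)‖ ^ 2) =
      ∫ v : ℝ, GD v * Pf ε m f v := by
  have h1 : ∀ j ∈ Finset.range (2 * m + 2), Integrable (fun v : ℝ => lc m j * (GD (L := L) v * gsq (Ai ε f j) v)) :=
    fun j _ => (GD_int (L := L) (Hd_Ai hε hf j)).const_mul _
  have h2 := integral_finsetSum _ h1
  have e1 : (fun v : ℝ => GD (L := L) v * Pf ε m f v) =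
      fun v => ∑ j ∈ Finset.range (2 * m + 2), lc m j * (GD (L := L) v * gsq (Ai ε f j) v) := by
    funext v
    rw [Pf_eq hε hf.1, Finset.mul_sum]
    exact Finset.sum_congr rfl fun j _ => by ring
  rw [e1, h2]
  refine Finset.sum_congr rfl fun j _ => ?_
  rw [integral_const_mul]
  rfl

lemma sum_CC {a ε : ℝ} (hε : 0 < ε) {f : ℝ → ℂ} (hf : Fa a f) (m : ℕ) (l : ℝ) :
    2 * Real.pi * ‖∑ j ∈ Finset.range (2 * m + 2), (lc m j : ℂ) * CC (Ai ε f j) l‖ ≤ ∫ v : ℝ, Pf ε m f v := by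
  have hI : ∀ j : ℕ, Integrable (fun y : ℝ => cexp (-((y * I) * l)) * (gsq (Ai ε f j) y : ℂ)) := by
    intro j
    refine Integrable.mono' (gsq_int (Ai_Fa hε hf j)) ?_ (Eventually.of_forall fun v => ?_)
    · exact (Continuous.mul (by fun_prop) (Complex.continuous_ofReal.comp (gsq_cont (Ai_Fa hε hf j)))).aestronglyMeasurable
    · have : -((v * I) * l) = ((-(v * l) : ℝ) : ℂ) * I := by push_cast; ring
      rw [norm_mul, this, Complex.norm_exp_ofReal_mul_I, one_mul, Complex.norm_real,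
        Real.norm_of_nonneg (gsq_nonneg _ v)]
  have h1 : ∀ j ∈ Finset.range (2 * m + 2), Integrable (fun y : ℝ => (lc m j : ℂ) * (cexp (-((y * I) * l)) *
      (gsq (Ai ε f j) y : ℂ))) := fun j _ => (hI j).const_mul _
  have h2 := integral_finsetSum _ h1
  have e1 : ∀ y : ℝ, ∑ j ∈ Finset.range (2 * m + 2), (lc m j : ℂ) * (cexp (-((y * I) * l)) * (gsq (Ai ε f j) y : ℂ)) =
      cexp (-((y * I) * l)) * (Pf ε m f y : ℂ) := by
    intro y
    rw [Pf_eq hε hf, Complex.ofReal_sum, Finset.mul_sum]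
    refine Finset.sum_congr rfl fun j _ => ?_
    push_cast
    ring
  simp_rw [e1] at h2
  have h3 : ∑ j ∈ Finset.range (2 * m + 2), (∫ y : ℝ, (lc m j : ℂ) * (cexp (-((y * I) * l)) * (gsq (Ai ε f j) y : ℂ))) =
      2 * Real.pi * ∑ j ∈ Finset.range (2 * m + 2), (lc m j : ℂ) * CC (Ai ε f j) l := by
    rw [Finset.mul_sum]
    refine Finset.sum_congr rfl fun j _ => ?_
    rw [integral_const_mul, four_one (L := L) (Ai_Fa hε hf j)]
    unfold CC
    ring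
  rw [h3] at h2
  have h4 : 2 * Real.pi * ‖∑ j ∈ Finset.range (2 * m + 2), (lc m j : ℂ) * CC (Ai ε f j) l‖ =
      ‖2 * Real.pi * ∑ j ∈ Finset.range (2 * m + 2), (lc m j : ℂ) * CC (Ai ε f j) l‖ := by
    rw [norm_mul, norm_mul, Complex.norm_two, Complex.norm_real, Real.norm_of_nonneg Real.pi_pos.le]
  rw [h4, ← h2]
  refine norm_integral_le_of_norm_le (Pf_int hε hf m) (Eventually.of_forall fun v => ?_)
  have : -((v * I) * l) = ((-(v * l) : ℝ) : ℂ) * I := by push_cast; ring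
  rw [norm_mul, this, Complex.norm_exp_ofReal_mul_I, one_mul, Complex.norm_real,
    Real.norm_of_nonneg (Pf_nonneg _ _ _ v)]

/-- the lower bound of the low-degree part -/
theorem prime_side {a ε B : ℝ} (ha : 0 < a) (hε : 0 < ε) (m : ℕ) (hm : (2 * m + 1) * ε ≤ 1) {f : ℝ → ℂ} (hf : Hd a f)
    (hB : 2 * ∑ n ∈ Finset.Icc 1 ⌊Real.exp (2 * (a + 1))⌋₊, ‖aL (L := L) n‖ ≤ B) :
    1 / (2 * Real.pi) * (∫ v : ℝ, (GD (L := L) v - B) * Pf ε m f v) -
      2 * L.r * (‖GG f f (1 / 2)‖ * ‖lo m (sg ε (1 / 2) ^ 2)‖) ≤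
      ∑ j ∈ Finset.range (2 * m + 2), lc m j * QQ (Ai ε f j) := by
  have hpi := Real.pi_pos
  set X : ℕ := ⌊Real.exp (2 * (a + 1))⌋₊ with hX
  have hq : ∀ j ∈ Finset.range (2 * m + 2), lc m j * QQ (Ai ε f j) =
      2 * L.r * (lc m j * (GG (Ai ε f j) (Ai ε f j) (1 / 2)).re) +
      1 / (2 * Real.pi) * (lc m j * (∫ v : ℝ, GD (L := L) v * ‖TT (Ai ε f j) (v * I)‖ ^ 2)) -
      2 * (∑ n ∈ Finset.Icc 1 X, aL (L := L) n * ((lc m j : ℂ) * CC (Ai ε f j) (Real.log n))).re := by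
    intro j hj
    have hj' : (j : ℝ) ≤ 2 * m + 1 := by
      have := Finset.mem_range.1 hj
      have h : j ≤ 2 * m + 1 := by omega
      exact_mod_cast h
    have hH : Hd (a + 1) (Ai ε f j) := Hd_mono (Hd_Ai hε hf j) (by
      have := mul_le_mul_of_nonneg_right hj' hε.le
      linarith)
    rw [weil (L := L) (by linarith) hH]
    have e1 : (TT (Ai ε f j) (1 / 2) * conj (TT (Ai ε f j) (-(1 / 2)))) = GG (Ai ε f j) (Ai ε f j) (1 / 2) := by
      unfold GG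
      congr 3
      rw [map_div₀, map_one, map_ofNat]
    rw [e1]
    have e2 : (∑ n ∈ Finset.Icc 1 X, aL (L := L) n * ((lc m j : ℂ) * CC (Ai ε f j) (Real.log n))).re =
        lc m j * (∑ n ∈ Finset.Icc 1 X, aL (L := L) n * ∫ x : ℝ, Ai ε f j (x + Real.log n) * conj (Ai ε f j x)).re := by
      rw [← Complex.re_ofReal_mul, Finset.mul_sum]
      congr 1
      refine Finset.sum_congr rfl fun n _ => ?_
      unfold CC
      ring
    rw [e2]
    ring
  rw [Finset.sum_congr rfl hq, Finset.sum_sub_distrib, Finset.sum_add_distrib, ← Finset.mul_sum, ← Finset.mul_sum,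
    ← Finset.mul_sum, sum_GD hε hf m]
  -- the poles
  have h1 : |∑ j ∈ Finset.range (2 * m + 2), lc m j * (GG (Ai ε f j) (Ai ε f j) (1 / 2)).re| ≤
      ‖GG f f (1 / 2)‖ * ‖lo m (sg ε (1 / 2) ^ 2)‖ := by
    have e1 : ∑ j ∈ Finset.range (2 * m + 2), lc m j * (GG (Ai ε f j) (Ai ε f j) (1 / 2)).re =
        (GG f f (1 / 2) * lo m (sg ε (1 / 2) ^ 2)).re := by
      rw [← lo_complex, Finset.mul_sum, Complex.re_sum]
      refine Finset.sum_congr rfl fun j _ => ?_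
      rw [GG_Ai hε hf.1, ← Complex.re_ofReal_mul]
      congr 1
      ring
    rw [e1, ← norm_mul]
    exact Complex.abs_re_le_norm _
  -- the primes
  have h2 : ∑ j ∈ Finset.range (2 * m + 2), (∑ n ∈ Finset.Icc 1 X, aL (L := L) n * ((lc m j : ℂ) * CC (Ai ε f j)
      (Real.log n))).re ≤ B / 2 * (1 / (2 * Real.pi) * ∫ v : ℝ, Pf ε m f v) := by
    rw [← Complex.re_sum, Finset.sum_comm]
    have e1 : ∀ n ∈ Finset.Icc 1 X, ∑ j ∈ Finset.range (2 * m + 2), aL (L := L) n * ((lc m j : ℂ) * CC (Ai ε f j)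
        (Real.log n)) = aL (L := L) n * ∑ j ∈ Finset.range (2 * m + 2), (lc m j : ℂ) * CC (Ai ε f j) (Real.log n) :=
      fun n _ => (Finset.mul_sum _ _ _).symm
    rw [Finset.sum_congr rfl e1]
    refine (Complex.re_le_norm _).trans ?_
    have hJ : 0 ≤ 1 / (2 * Real.pi) * ∫ v : ℝ, Pf ε m f v :=
      mul_nonneg (by positivity) (integral_nonneg fun v => Pf_nonneg _ _ _ _)
    calc ‖∑ n ∈ Finset.Icc 1 X, aL (L := L) n * ∑ j ∈ Finset.range (2 * m + 2), (lc m j : ℂ) * CC (Ai ε f j) (Real.log n)‖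
        ≤ ∑ n ∈ Finset.Icc 1 X, ‖aL (L := L) n‖ * (1 / (2 * Real.pi) * ∫ v : ℝ, Pf ε m f v) := by
          refine norm_sum_le_of_le _ fun n _ => ?_
          rw [norm_mul]
          refine mul_le_mul_of_nonneg_left ?_ (norm_nonneg _)
          rw [one_div_mul_eq_div, le_div_iff₀ (by positivity), mul_comm]
          exact sum_CC (L := L) hε hf.1 m _
      _ = (∑ n ∈ Finset.Icc 1 X, ‖aL (L := L) n‖) * (1 / (2 * Real.pi) * ∫ v : ℝ, Pf ε m f v) := by rw [Finset.sum_mul]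
      _ ≤ _ := mul_le_mul_of_nonneg_right (by linarith) hJ
  have h3 : ∫ v : ℝ, (GD (L := L) v - B) * Pf ε m f v = (∫ v : ℝ, GD (L := L) v * Pf ε m f v) - B * ∫ v : ℝ, Pf ε m f v := by
    rw [← integral_const_mul, ← integral_sub (GD_Pf_int hε hf m) ((Pf_int hε hf.1 m).const_mul B)]
    refine integral_congr_ae (Eventually.of_forall fun v => ?_)
    show (GD (L := L) v - B) * Pf ε m f v = GD (L := L) v * Pf ε m f v - B * Pf ε m f v
    ring
  rw [h3]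
  have h4 := neg_le_of_abs_le h1
  have h5 : (0 : ℝ) ≤ 2 * L.r := by positivity
  have h6 := mul_le_mul_of_nonneg_left h4 h5
  have e7 : 1 / (2 * Real.pi) * ((∫ v : ℝ, GD (L := L) v * Pf ε m f v) - B * ∫ v : ℝ, Pf ε m f v) =
      1 / (2 * Real.pi) * (∫ v : ℝ, GD (L := L) v * Pf ε m f v) - B * (1 / (2 * Real.pi) * ∫ v : ℝ, Pf ε m f v) := by ring
  rw [e7]
  linarith

/-- the multiplier at the poles -/
lemma lo_pole {ε : ℝ} (hε : 0 < ε) (hε1 : ε ≤ 1 / 4) (m : ℕ) : ‖lo m (sg ε (1 / 2) ^ 2)‖ ≤ (24 * ε) ^ (m + 1) := by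
  have e1 : ‖(1 / 2 : ℂ)‖ = 1 / 2 := by norm_num
  have h1 := sg_sub hε (1 / 2) (by rw [e1]; linarith)
  rw [e1] at h1
  have h2 : ‖1 - sg ε (1 / 2)‖ ≤ ε := by
    rw [norm_sub_rev]
    linarith
  have h3 : ‖1 + sg ε (1 / 2)‖ ≤ 3 := by
    have : 1 + sg ε (1 / 2) = 2 - (1 - sg ε (1 / 2)) := by ring
    rw [this]
    refine (norm_sub_le _ _).trans ?_
    rw [Complex.norm_two]
    linarith
  have h4 : ‖1 - sg ε (1 / 2) ^ 2‖ ≤ 3 * ε := by
    have : 1 - sg ε (1 / 2) ^ 2 = (1 - sg ε (1 / 2)) * (1 + sg ε (1 / 2)) := by ring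
    rw [this, norm_mul]
    calc ‖1 - sg ε (1 / 2)‖ * ‖1 + sg ε (1 / 2)‖ ≤ ε * 3 := mul_le_mul h2 h3 (norm_nonneg _) hε.le
      _ = _ := mul_comm _ _
  refine (norm_lo_le (m := m) (h4.trans (by linarith))).trans ?_
  rw [← mul_pow]
  exact pow_le_pow_left₀ (by positivity) (by linarith) _

end

end Pool.Agent.Zk2.LW
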