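import Pool.Agent.Zk2.LW.D

/-! # The local Weil criterion: the uncertainty principle -/

set_option autoImplicit false
set_option linter.unusedSectionVars false
set_option maxHeartbeats 1000000

open Complex Filter Topology Set MeasureTheory Metric
open scoped ComplexConjugate

namespace Pool.Agent.Zk2.LW

open Pool.Agent.Y23 (TT Fa N2 plancherel N2_nonneg norm_TT_le differentiable_TT)
open Pool.Agent.Y23.G (gsq gsq_nonneg gsq_cont gsq_int)
open Pool.Agent.Zk2.WP (Av sg Av_Fa TT_Av sg_sub)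

lemma sg_diff {ε : ℝ} (hε : 0 < ε) : Differentiable ℂ (sg ε) := by
  have h0 : Fa ε ((Icc (-ε) ε).indicator (fun _ : ℝ => (((2 * ε)⁻¹ : ℝ) : ℂ))) := by
    refine ⟨memLp_indicator_const 2 measurableSet_Icc _ (Or.inr ?_), fun x hx => ?_⟩
    · rw [Real.volume_Icc]
      exact ENNReal.ofReal_ne_top
    · refine indicator_of_notMem (fun h => ?_) _
      exact absurd (abs_le.2 h) (not_le.2 hx)
  have h1 := differentiable_TT h0
  have e : TT ((Icc (-ε) ε).indicator (fun _ : ℝ => (((2 * ε)⁻¹ : ℝ) : ℂ))) = sg ε := by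
    funext w
    unfold TT sg
    have e : ∀ x : ℝ, (Icc (-ε) ε).indicator (fun _ : ℝ => (((2 * ε)⁻¹ : ℝ) : ℂ)) x * cexp (w * x) =
        (Icc (-ε) ε).indicator (fun x : ℝ => (((2 * ε)⁻¹ : ℝ) : ℂ) * cexp (w * x)) x := by
      intro x
      by_cases hx : x ∈ Icc (-ε) ε
      · rw [indicator_of_mem hx, indicator_of_mem hx]
      · rw [indicator_of_notMem hx, indicator_of_notMem hx, zero_mul]
    simp_rw [e]
    rw [integral_indicator measurableSet_Icc, integral_const_mul, integral_Icc_eq_integral_Ioc,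
      intervalIntegral.integral_of_le (by linarith)]
  rwa [e] at h1

/-- the bound inside the disc -/
lemma unc_point {b ε r : ℝ} (hb : 0 < b) (hε : 0 < ε) (hr : 0 < r) (N : ℕ) {a : ℝ} (hab : a + N * ε ≤ b) {f : ℝ → ℂ}
    (hf : Fa a f) {v : ℝ} (hv : |v| ≤ r) :
    sq ε v ^ N * gsq f v ≤ 2 * b * Real.exp (2 * b * r) / (r ^ 2) ^ N * N2 (Di ε f N) := by
  set H : ℂ → ℂ := fun w => TT f w * sg ε w ^ N with hH
  have hHd : Differentiable ℂ H := (differentiable_TT hf).mul ((sg_diff hε).pow N)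
  set M : ℝ := 2 * b * Real.exp (2 * b * r) / (r ^ 2) ^ N * N2 (Di ε f N) with hM
  have hM0 : 0 ≤ M := mul_nonneg (by positivity) (N2_nonneg _)
  have hfr : ∀ w ∈ frontier (ball (0 : ℂ) r), ‖H w‖ ≤ Real.sqrt M := by
    intro w hw
    rw [frontier_ball _ hr.ne', mem_sphere_zero_iff_norm] at hw
    refine Real.le_sqrt_of_sq_le ?_
    have h1 : ‖TT (Di ε f N) w‖ ^ 2 ≤ 2 * b * Real.exp (2 * b * |w.re|) * N2 (Di ε f N) :=
      norm_TT_le hb ((Di_Fa hε hf N).mono hab) w
    rw [TT_Di hε hf] at h1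
    have e : ‖TT f w * (w * sg ε w) ^ N‖ ^ 2 = (r ^ 2) ^ N * ‖H w‖ ^ 2 := by
      rw [hH]
      simp only
      rw [norm_mul, norm_mul, norm_pow, norm_pow, norm_mul, hw]
      ring
    rw [e] at h1
    have h2 : 2 * b * Real.exp (2 * b * |w.re|) * N2 (Di ε f N) ≤ 2 * b * Real.exp (2 * b * r) * N2 (Di ε f N) := by
      refine mul_le_mul_of_nonneg_right (mul_le_mul_of_nonneg_left (Real.exp_le_exp.2 ?_) (by positivity)) (N2_nonneg _)
      refine mul_le_mul_of_nonneg_left ?_ (by positivity)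
      rw [← hw]
      exact Complex.abs_re_le_norm w
    rw [hM, div_mul_eq_mul_div, le_div_iff₀ (by positivity)]
    linarith
  have h3 : ‖H (v * I)‖ ≤ Real.sqrt M := by
    refine Complex.norm_le_of_forall_mem_frontier_norm_le isBounded_ball hHd.diffContOnCl hfr ?_
    rw [closure_ball _ hr.ne', mem_closedBall_zero_iff, norm_mul, Complex.norm_I, mul_one, Complex.norm_real,
      Real.norm_eq_abs]
    exact hv
  have h4 := pow_le_pow_left₀ (norm_nonneg _) h3 2
  rw [Real.sq_sqrt hM0] at h4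
  have e : ‖H (v * I)‖ ^ 2 = sq ε v ^ N * gsq f v := by
    rw [hH]
    simp only
    unfold gsq sq
    rw [norm_mul, norm_pow, sg_line hε, Complex.norm_real, Real.norm_eq_abs, mul_pow, ← pow_mul, mul_comm N 2,
      pow_mul, sq_abs, mul_comm]
  rw [← e]
  exact h4

/-- the total of the high-pass density -/
noncomputable def JJ (ε : ℝ) (m : ℕ) (f : ℝ → ℂ) : ℝ := 1 / (2 * Real.pi) * ∫ v : ℝ, Pf ε m f v

lemma JJ_nonneg (ε : ℝ) (m : ℕ) (f : ℝ → ℂ) : 0 ≤ JJ ε m f :=
  mul_nonneg (by have := Real.pi_pos; positivity) (integral_nonneg fun v => Pf_nonneg _ _ _ _)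

lemma JJ_eq (ε : ℝ) (m : ℕ) (f : ℝ → ℂ) : ∫ v : ℝ, Pf ε m f v = 2 * Real.pi * JJ ε m f := by
  unfold JJ
  have := Real.pi_pos
  field_simp

/-- the norm of the differences -/
lemma N2_Di {a ε : ℝ} (hε : 0 < ε) {f : ℝ → ℂ} (hf : Fa a f) (m : ℕ) :
    N2 (Di ε f (m + 1)) ≤ (20 / ε ^ 2) ^ (m + 1) * JJ ε m f := by
  have hpi := Real.pi_pos
  have h1 : ∫ v : ℝ, gsq (Di ε f (m + 1)) v = 2 * Real.pi * N2 (Di ε f (m + 1)) := plancherel (Di_Fa hε hf (m + 1))
  have h2 : ∫ v : ℝ, gsq (Di ε f (m + 1)) v ≤ ∫ v : ℝ, (20 / ε ^ 2) ^ (m + 1) * Pf ε m f v := by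
    refine integral_mono (gsq_int (Di_Fa hε hf (m + 1))) ((Pf_int hε hf m).const_mul _) fun v => ?_
    show gsq (Di ε f (m + 1)) v ≤ (20 / ε ^ 2) ^ (m + 1) * Pf ε m f v
    rw [gsq_Di hε hf]
    unfold Pf
    rw [← mul_assoc]
    refine mul_le_mul_of_nonneg_right ?_ (gsq_nonneg f v)
    have h3 := diff_le hε v
    have h4 : 0 ≤ v ^ 2 * sq ε v := mul_nonneg (sq_nonneg _) (sq_nonneg' _ _)
    have h5 := pow_le_pow_left₀ h4 h3 (m + 1)
    rw [mul_pow (20 / ε ^ 2)] at h5
    exact h5.trans (mul_le_mul_of_nonneg_left (pow_le_lo (sq_nonneg' _ _) (sq_le_one _ _)) (by positivity))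
  rw [integral_const_mul, JJ_eq, h1] at h2
  have h3 : 2 * Real.pi * N2 (Di ε f (m + 1)) ≤ 2 * Real.pi * ((20 / ε ^ 2) ^ (m + 1) * JJ ε m f) := by linarith
  exact le_of_mul_le_mul_left h3 (by positivity)

/-- the parameters -/
noncomputable def ep (m : ℕ) : ℝ := 1 / (2 * ((m : ℝ) + 1))

lemma ep_pos (m : ℕ) : 0 < ep m := by unfold ep; positivity

lemma exp_two : Real.exp 2 ≤ 15 / 2 := by
  have h1 := Real.exp_one_lt_d9
  have h2 : Real.exp 2 = Real.exp 1 * Real.exp 1 := by rw [← Real.exp_add]; norm_num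
  have h3 := Real.exp_pos 1
  rw [h2]
  nlinarith

/-- the bound at low frequencies -/
lemma low_freq {a : ℝ} (ha : 0 < a) (m : ℕ) {f : ℝ → ℂ} (hf : Fa a f) {v : ℝ} (hv : |v| ≤ ((m : ℝ) + 1) / (a + 1)) :
    gsq f v ≤ 2 * (a + 1) * (1200 * (a + 1) ^ 2) ^ (m + 1) * JJ (ep m) m f := by
  set b : ℝ := a + 1 with hb
  have hb1 : 1 ≤ b := by rw [hb]; linarith
  have hb0 : 0 < b := by linarith
  set n : ℝ := (m : ℝ) + 1 with hn
  have hn1 : 1 ≤ n := by rw [hn]; have : (0 : ℝ) ≤ m := Nat.cast_nonneg m; linarith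
  have hn0 : 0 < n := by linarith
  have hε := ep_pos m
  have hε2 : ep m = 1 / (2 * n) := rfl
  have hJ := JJ_nonneg (ep m) m f
  have hab : a + ((m + 1 : ℕ) : ℝ) * ep m ≤ b := by
    rw [hε2, hb]
    push_cast
    rw [← hn]
    have : n * (1 / (2 * n)) = 1 / 2 := by field_simp
    rw [this]
    linarith
  have h1 := unc_point hb0 hε (r := n / b) (by positivity) (m + 1) hab hf hv
  have h2 := N2_Di hε hf m
  have h3 : 0 ≤ 2 * b * Real.exp (2 * b * (n / b)) / ((n / b) ^ 2) ^ (m + 1) := by positivity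
  have h4 := h1.trans (mul_le_mul_of_nonneg_left h2 h3)
  -- the multiplier is at least a half
  have h5 : 1 / 2 ≤ sq (ep m) v := by
    have k1 : |ep m * v| ≤ 1 / 2 := by
      rw [abs_mul, abs_of_pos hε, hε2]
      calc 1 / (2 * n) * |v| ≤ 1 / (2 * n) * (n / b) := mul_le_mul_of_nonneg_left hv (by positivity)
        _ = 1 / (2 * b) := by field_simp
        _ ≤ 1 / 2 := by
            rw [div_le_div_iff₀ (by positivity) (by norm_num)]
            linarith
    have k2 := one_sub_sq_le (ε := ep m) (v := v) (by linarith)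
    have k3 : (ep m * v) ^ 2 ≤ (1 / 2) ^ 2 := by
      rw [← sq_abs]
      exact pow_le_pow_left₀ (abs_nonneg _) k1 2
    linarith
  have h6 : (1 / 2 : ℝ) ^ (m + 1) * gsq f v ≤ sq (ep m) v ^ (m + 1) * gsq f v :=
    mul_le_mul_of_nonneg_right (pow_le_pow_left₀ (by norm_num) h5 _) (gsq_nonneg f v)
  have h7 := h6.trans h4
  have e1 : Real.exp (2 * b * (n / b)) = Real.exp 2 ^ (m + 1) := by
    have : 2 * b * (n / b) = ((m + 1 : ℕ) : ℝ) * 2 := by
      push_cast
      rw [← hn]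
      field_simp
    rw [this, Real.exp_nat_mul]
  have e2 : 2 * b * Real.exp (2 * b * (n / b)) / ((n / b) ^ 2) ^ (m + 1) * ((20 / ep m ^ 2) ^ (m + 1) * JJ (ep m) m f) =
      2 * b * (Real.exp 2 * (80 * b ^ 2)) ^ (m + 1) * JJ (ep m) m f := by
    rw [e1, mul_pow (Real.exp 2)]
    have : (80 * b ^ 2) ^ (m + 1) = (20 / ep m ^ 2) ^ (m + 1) / ((n / b) ^ 2) ^ (m + 1) := by
      rw [← div_pow]
      congr 1
      rw [hε2]
      field_simp
      ring
    rw [this]
    ring
  rw [e2] at h7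
  have h8 : (Real.exp 2 * (80 * b ^ 2)) ^ (m + 1) ≤ (600 * b ^ 2) ^ (m + 1) := by
    refine pow_le_pow_left₀ (by positivity) ?_ _
    nlinarith [exp_two, sq_nonneg b]
  have h9 : gsq f v = 2 ^ (m + 1) * ((1 / 2 : ℝ) ^ (m + 1) * gsq f v) := by
    rw [← mul_assoc, ← mul_pow]
    norm_num
  rw [h9]
  calc 2 ^ (m + 1) * ((1 / 2 : ℝ) ^ (m + 1) * gsq f v) ≤
        2 ^ (m + 1) * (2 * b * (Real.exp 2 * (80 * b ^ 2)) ^ (m + 1) * JJ (ep m) m f) :=
          mul_le_mul_of_nonneg_left h7 (by positivity)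
    _ ≤ 2 ^ (m + 1) * (2 * b * (600 * b ^ 2) ^ (m + 1) * JJ (ep m) m f) := by gcongr
    _ = 2 * b * (1200 * b ^ 2) ^ (m + 1) * JJ (ep m) m f := by
        have : (1200 * b ^ 2) ^ (m + 1) = 2 ^ (m + 1) * (600 * b ^ 2) ^ (m + 1) := by
          rw [← mul_pow]; congr 1; ring
        rw [this]
        ring

/-- the high-pass density at very low frequencies -/
lemma Pf_low {a T1 : ℝ} (ha : 0 < a) (hT : 0 ≤ T1) (m : ℕ) (hm : 30 * (a + 1) * T1 ≤ (m : ℝ) + 1) {f : ℝ → ℂ} (hf : Fa a f)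
    {v : ℝ} (hv : |v| ≤ T1) : Pf (ep m) m f v ≤ 2 * (a + 1) * (1 / 2) ^ (m + 1) * JJ (ep m) m f := by
  set b : ℝ := a + 1 with hb
  have hb1 : 1 ≤ b := by rw [hb]; linarith
  have hb0 : 0 < b := by linarith
  set n : ℝ := (m : ℝ) + 1 with hn
  have hn1 : 1 ≤ n := by rw [hn]; have : (0 : ℝ) ≤ m := Nat.cast_nonneg m; linarith
  have hn0 : 0 < n := by linarith
  have hε := ep_pos m
  have hε2 : ep m = 1 / (2 * n) := rfl
  have hJ := JJ_nonneg (ep m) m f
  have hT1n : T1 ≤ n := by nlinarith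
  have hv2 : |v| ≤ n / b := by
    refine hv.trans ?_
    rw [le_div_iff₀ hb0]
    nlinarith
  have h1 := low_freq ha m hf hv2
  have h2 := lo_le (m := m) (sq_nonneg' (ep m) v) (sq_le_one (ep m) v)
  have k1 : |ep m * v| ≤ T1 / (2 * n) := by
    rw [abs_mul, abs_of_pos hε, hε2]
    calc 1 / (2 * n) * |v| ≤ 1 / (2 * n) * T1 := mul_le_mul_of_nonneg_left hv (by positivity)
      _ = _ := by ring
  have k0 : T1 / (2 * n) ≤ 2 := by
    rw [div_le_iff₀ (by positivity)]
    linarith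
  have h3 : 1 - sq (ep m) v ≤ T1 ^ 2 / (12 * n ^ 2) := by
    have k2 := one_sub_sq_le (ε := ep m) (v := v) (k1.trans k0)
    have k3 : (ep m * v) ^ 2 ≤ (T1 / (2 * n)) ^ 2 := by
      rw [← sq_abs]
      exact pow_le_pow_left₀ (abs_nonneg _) k1 2
    calc 1 - sq (ep m) v ≤ (ep m * v) ^ 2 / 3 := k2
      _ ≤ (T1 / (2 * n)) ^ 2 / 3 := by linarith
      _ = _ := by field_simp; ring
  have h4 : 0 ≤ 1 - sq (ep m) v := by linarith [sq_le_one (ep m) v]
  unfold Pf
  calc lo m (sq (ep m) v) * gsq f v ≤ (4 ^ (m + 1) * (1 - sq (ep m) v) ^ (m + 1)) *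
        (2 * b * (1200 * b ^ 2) ^ (m + 1) * JJ (ep m) m f) := mul_le_mul h2 h1 (gsq_nonneg f v) (by positivity)
    _ = 2 * b * (4 * (1 - sq (ep m) v) * (1200 * b ^ 2)) ^ (m + 1) * JJ (ep m) m f := by
        rw [mul_pow (4 * (1 - sq (ep m) v)), mul_pow 4]
        ring
    _ ≤ 2 * b * (1 / 2) ^ (m + 1) * JJ (ep m) m f := by
        refine mul_le_mul_of_nonneg_right (mul_le_mul_of_nonneg_left ?_ (by positivity)) hJ
        refine pow_le_pow_left₀ (by positivity) ?_ _
        calc 4 * (1 - sq (ep m) v) * (1200 * b ^ 2) ≤ 4 * (T1 ^ 2 / (12 * n ^ 2)) * (1200 * b ^ 2) := by gcongr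
          _ = 400 * (b * T1) ^ 2 / n ^ 2 := by field_simp; ring
          _ ≤ 1 / 2 := by
              rw [div_le_iff₀ (by positivity)]
              have h5 : 0 ≤ b * T1 := by positivity
              have h6 : 30 * (b * T1) ≤ n := by linarith
              have h7 := pow_le_pow_left₀ (by positivity) h6 2
              nlinarith

/-- the norm is bounded by the total of the high-pass density -/
lemma N2_le {a : ℝ} (ha : 0 < a) (m : ℕ) {f : ℝ → ℂ} (hf : Fa a f) :
    N2 f ≤ 2 * ((m : ℝ) + 1) * (1200 * (a + 1) ^ 2) ^ (m + 1) * JJ (ep m) m f := by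
  set b : ℝ := a + 1 with hb
  have hb1 : 1 ≤ b := by rw [hb]; linarith
  have hb0 : 0 < b := by linarith
  set n : ℝ := (m : ℝ) + 1 with hn
  have hn1 : 1 ≤ n := by rw [hn]; have : (0 : ℝ) ≤ m := Nat.cast_nonneg m; linarith
  have hn0 : 0 < n := by linarith
  have hε := ep_pos m
  have hε2 : ep m = 1 / (2 * n) := rfl
  have hJ := JJ_nonneg (ep m) m f
  have hpi := Real.pi_gt_three
  set K : ℝ := (1200 * b ^ 2) ^ (m + 1) with hK
  have hK0 : 0 ≤ K := by positivity
  have hpt : ∀ v : ℝ, gsq f v ≤ (Icc (-(n / b)) (n / b)).indicator (fun _ => 2 * b * K * JJ (ep m) m f) v + K * Pf (ep m) m f v := by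
    intro v
    have hP := Pf_nonneg (ep m) m f v
    by_cases hv : v ∈ Icc (-(n / b)) (n / b)
    · rw [indicator_of_mem hv]
      have := low_freq ha m hf (abs_le.2 hv)
      have h2 : 0 ≤ K * Pf (ep m) m f v := mul_nonneg hK0 hP
      linarith
    · rw [indicator_of_notMem hv, zero_add]
      have hv' : n / b < |v| := by
        by_contra hcon
        rw [not_lt] at hcon
        exact hv (abs_le.1 hcon)
      have h1 : 1 / (1200 * b ^ 2) ≤ 1 - sq (ep m) v := by
        have hb2 : 1 ≤ b ^ 2 := by nlinarith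
        rcases le_or_gt |ep m * v| Real.pi with h | h
        · have h2 := le_one_sub_sq h
          have h3 : 1 / (2 * b) ≤ |ep m * v| := by
            rw [abs_mul, abs_of_pos hε, hε2]
            calc 1 / (2 * b) = 1 / (2 * n) * (n / b) := by field_simp
              _ ≤ 1 / (2 * n) * |v| := mul_le_mul_of_nonneg_left hv'.le (by positivity)
          have h4 := pow_le_pow_left₀ (by positivity) h3 2
          rw [sq_abs] at h4
          have h5 : 1 / (1200 * b ^ 2) ≤ (1 / (2 * b)) ^ 2 / 20 := by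
            have : (1 / (2 * b)) ^ 2 / 20 = 1 / (80 * b ^ 2) := by field_simp; ring
            rw [this]
            exact div_le_div_of_nonneg_left (by norm_num) (by positivity) (by linarith)
          linarith
        · have h2 := sq_far h
          have h3 : 1 / (1200 * b ^ 2) ≤ 1 / 1200 := div_le_div_of_nonneg_left (by norm_num) (by norm_num) (by linarith)
          linarith
      have h2 := pow_le_pow_left₀ (by positivity) h1 (m + 1)
      have h3 := h2.trans (pow_le_lo (m := m) (sq_nonneg' (ep m) v) (sq_le_one (ep m) v))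
      have h4 : K * (1 / (1200 * b ^ 2)) ^ (m + 1) = 1 := by
        rw [hK, ← mul_pow]
        have : 1200 * b ^ 2 * (1 / (1200 * b ^ 2)) = 1 := by field_simp
        rw [this, one_pow]
      have h5 : 1 ≤ K * lo m (sq (ep m) v) := by
        rw [← h4]
        exact mul_le_mul_of_nonneg_left h3 hK0
      unfold Pf
      have := gsq_nonneg f v
      nlinarith
  have h1 : ∫ v : ℝ, gsq f v = 2 * Real.pi * N2 f := plancherel hf
  have hi1 : Integrable ((Icc (-(n / b)) (n / b)).indicator (fun _ : ℝ => 2 * b * K * JJ (ep m) m f)) :=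
    (integrable_indicator_iff measurableSet_Icc).2 (integrableOn_const (by
      rw [Real.volume_Icc]; exact ENNReal.ofReal_ne_top))
  have h2 := integral_mono (gsq_int hf) (hi1.add ((Pf_int hε hf m).const_mul K)) hpt
  have h3 : ∫ v : ℝ, ((Icc (-(n / b)) (n / b)).indicator (fun _ => 2 * b * K * JJ (ep m) m f) v + K * Pf (ep m) m f v) =
      4 * n * K * JJ (ep m) m f + K * (2 * Real.pi * JJ (ep m) m f) := by
    rw [integral_add hi1 ((Pf_int hε hf m).const_mul K), integral_indicator measurableSet_Icc, setIntegral_const,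
      integral_const_mul, JJ_eq]
    congr 1
    rw [Measure.real, Real.volume_Icc, ENNReal.toReal_ofReal (by
      have : 0 ≤ n / b := by positivity
      linarith), smul_eq_mul]
    field_simp
    ring
  have h4 : 2 * Real.pi * N2 f ≤ 4 * n * K * JJ (ep m) m f + K * (2 * Real.pi * JJ (ep m) m f) := by
    rw [← h1, ← h3]
    exact h2
  have h5 : 4 * n * K * JJ (ep m) m f + K * (2 * Real.pi * JJ (ep m) m f) ≤
      2 * Real.pi * (2 * n * K * JJ (ep m) m f) := by
    have k1 : 0 ≤ K * JJ (ep m) m f := mul_nonneg hK0 hJ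
    have k2 : 4 * n + 2 * Real.pi ≤ 2 * Real.pi * (2 * n) := by nlinarith
    have k3 := mul_le_mul_of_nonneg_right k2 k1
    linarith
  have h6 := h4.trans h5
  exact le_of_mul_le_mul_left h6 (by positivity)

end Pool.Agent.Zk2.LW
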