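import Pool.Agent.Zk2.LW.E

/-! # The local Weil criterion: the core -/

set_option autoImplicit false
set_option linter.unusedSectionVars false
set_option maxHeartbeats 1000000

open Complex Filter Topology Set MeasureTheory Metric
open scoped ComplexConjugate

namespace Pool.Agent.Zk2.LW

open Pool.Agent.Y23 (TT Fa N2 plancherel N2_nonneg norm_TT_le differentiable_TT)
open Pool.Agent.Y23.G (gsq gsq_nonneg gsq_cont gsq_int QQ Hd GG mu Zt aL GD GD_bd GD_cont Lg one_le_Lg LFun zd)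
open Pool.Agent.Zk2.WP (Av sg Av_Fa TT_Av sg_sub)

section
variable [L : LFun]

/-- the archimedean integral -/
lemma arch {a B C0 : ℝ} (ha : 0 < a) (hB : 0 ≤ B) (hC0 : 0 < C0) (hGD : ∀ y, Lg y - C0 ≤ GD (L := L) y) (m : ℕ)
    (hm : 30 * (a + 1) * Real.exp (B + C0 + 1) ≤ (m : ℝ) + 1) (hm2 : ((m : ℝ) + 1) ^ 2 ≤ 2 ^ (m + 1)) {f : ℝ → ℂ}
    (hf : Hd a f) : JJ (ep m) m f / 2 ≤ 1 / (2 * Real.pi) * ∫ v : ℝ, (GD (L := L) v - B) * Pf (ep m) m f v := by
  set b : ℝ := a + 1 with hb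
  have hb1 : 1 ≤ b := by rw [hb]; linarith
  set n : ℝ := (m : ℝ) + 1 with hn
  have hn0 : 0 < n := by rw [hn]; positivity
  set T1 : ℝ := Real.exp (B + C0 + 1) with hT1
  have hT10 : 0 < T1 := Real.exp_pos _
  have hT1B : B + C0 ≤ T1 := by
    have := Real.add_one_le_exp (B + C0 + 1)
    linarith
  have hε := ep_pos m
  have hJ := JJ_nonneg (ep m) m f
  have hpi := Real.pi_gt_three
  set M : ℝ := (B + C0) * (2 * b * (1 / 2) ^ (m + 1) * JJ (ep m) m f) with hM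
  have hM0 : 0 ≤ M := by positivity
  have hpt : ∀ v : ℝ, Pf (ep m) m f v - (Icc (-T1) T1).indicator (fun _ => M) v ≤ (GD (L := L) v - B) * Pf (ep m) m f v := by
    intro v
    have hP := Pf_nonneg (ep m) m f v
    have h1 := hGD v
    by_cases hv : v ∈ Icc (-T1) T1
    · rw [indicator_of_mem hv]
      have h2 := Pf_low ha hT10.le m hm hf.1 (abs_le.2 hv)
      have h3 := one_le_Lg v
      have h4 : 1 - (B + C0) ≤ GD (L := L) v - B := by linarith
      have h5 := mul_le_mul_of_nonneg_right h4 hP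
      have h6 := mul_le_mul_of_nonneg_left h2 (show 0 ≤ B + C0 by linarith)
      rw [hM]
      linarith
    · rw [indicator_of_notMem hv, sub_zero]
      have hv' : T1 < |v| := by
        by_contra hcon
        rw [not_lt] at hcon
        exact hv (abs_le.1 hcon)
      have h2 : B + C0 + 1 ≤ Lg v := by
        unfold Lg
        rw [Real.le_log_iff_exp_le (by positivity)]
        linarith
      have h3 : 1 ≤ GD (L := L) v - B := by linarith
      nlinarith
  have hi1 : Integrable ((Icc (-T1) T1).indicator (fun _ : ℝ => M)) :=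
    (integrable_indicator_iff measurableSet_Icc).2 (integrableOn_const (by
      rw [Real.volume_Icc]; exact ENNReal.ofReal_ne_top))
  have hPi := Pf_int hε hf.1 m
  have hGi : Integrable (fun v : ℝ => (GD (L := L) v - B) * Pf (ep m) m f v) := by
    refine ((GD_Pf_int (L := L) hε hf m).sub (hPi.const_mul B)).congr (Eventually.of_forall fun v => ?_)
    show GD (L := L) v * Pf (ep m) m f v - B * Pf (ep m) m f v = _
    ring
  have h1 := integral_mono (hPi.sub hi1) hGi hpt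
  have h2 : ∫ v : ℝ, (Pf (ep m) m f v - (Icc (-T1) T1).indicator (fun _ => M) v) = 2 * Real.pi * JJ (ep m) m f - 2 * T1 * M := by
    rw [integral_sub hPi hi1, integral_indicator measurableSet_Icc, setIntegral_const, JJ_eq]
    congr 1
    rw [Measure.real, Real.volume_Icc, ENNReal.toReal_ofReal (by linarith), smul_eq_mul]
    ring
  have h3 : 2 * Real.pi * JJ (ep m) m f - 2 * T1 * M ≤ ∫ v : ℝ, (GD (L := L) v - B) * Pf (ep m) m f v := by
    rw [← h2]
    exact h1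
  have h4 : 2 * T1 * M ≤ JJ (ep m) m f := by
    have k1 : 2 * T1 * M ≤ (4 * b * T1 ^ 2) * ((1 / 2) ^ (m + 1) * JJ (ep m) m f) := by
      rw [hM]
      have : 0 ≤ (1 / 2 : ℝ) ^ (m + 1) * JJ (ep m) m f := by positivity
      have k2 : 4 * b * T1 * (B + C0) ≤ 4 * b * T1 * T1 := mul_le_mul_of_nonneg_left hT1B (by positivity)
      have k3 := mul_le_mul_of_nonneg_right k2 this
      linarith
    have k2 : 4 * b * T1 ^ 2 ≤ n ^ 2 := by
      have k3 : 0 ≤ b * T1 := by positivity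
      have k4 : 30 * (b * T1) ≤ n := by linarith
      have k5 := pow_le_pow_left₀ (by positivity) k4 2
      have k6 : b * T1 ^ 2 ≤ (b * T1) ^ 2 := by
        rw [mul_pow]
        refine mul_le_mul_of_nonneg_right ?_ (sq_nonneg _)
        nlinarith
      nlinarith
    have k3 : (2 : ℝ) ^ (m + 1) * ((1 / 2) ^ (m + 1) * JJ (ep m) m f) = JJ (ep m) m f := by
      rw [← mul_assoc, ← mul_pow]
      norm_num
    calc 2 * T1 * M ≤ (4 * b * T1 ^ 2) * ((1 / 2) ^ (m + 1) * JJ (ep m) m f) := k1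
      _ ≤ 2 ^ (m + 1) * ((1 / 2) ^ (m + 1) * JJ (ep m) m f) :=
          mul_le_mul_of_nonneg_right (k2.trans hm2) (by positivity)
      _ = _ := k3
  have h5 : (2 * Real.pi - 1) * JJ (ep m) m f ≤ ∫ v : ℝ, (GD (L := L) v - B) * Pf (ep m) m f v := by linarith
  rw [one_div_mul_eq_div, le_div_iff₀ (by positivity)]
  nlinarith

/-- the inequality with the parameters -/
lemma param {a B C0 : ℝ} (ha : 0 < a) (hB : 0 ≤ B) (hC0 : 0 < C0) (hGD : ∀ y, Lg y - C0 ≤ GD (L := L) y)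
    (hBs : 2 * ∑ n ∈ Finset.Icc 1 ⌊Real.exp (2 * (a + 1))⌋₊, ‖aL (L := L) n‖ ≤ B) (m : ℕ) (h4 : 4 ≤ m)
    (hm : 30 * (a + 1) * Real.exp (B + C0 + 1) ≤ (m : ℝ) + 1) (hmb : 57600 * (a + 1) ^ 2 ≤ (m : ℝ) + 1)
    (hma : Real.exp (2 * a) ≤ (m : ℝ) + 1)
    (hmp : (64 * L.r + 39321600 * (∑' ρ : Zt (D := zd (L := L)), (mu (D := zd (L := L)) ρ : ℝ) * (1 / (1 + (ρ : ℂ).im ^ 2))) + 1) *
      ((m : ℝ) + 1) ^ 7 ≤ 2 ^ (m + 1)) {f : ℝ → ℂ} (hf : Hd a f)
    (hz : ∀ ρ : Zt (D := zd (L := L)), 1 / 2 < (ρ : ℂ).re → |(ρ : ℂ).im| ≤ 800 * ((m : ℝ) + 1) * (a + 1) → TT f ((ρ : ℂ) - 1 / 2) = 0) :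
    1 / (8 * ((m : ℝ) + 1) * (1200 * (a + 1) ^ 2) ^ (m + 1)) * N2 f ≤ QQ (D := zd (L := L)) f := by
  set b : ℝ := a + 1 with hb
  have hb1 : 1 ≤ b := by rw [hb]; linarith
  have hb0 : 0 < b := by linarith
  have hab : a ≤ b := by rw [hb]; linarith
  set n : ℝ := (m : ℝ) + 1 with hn
  have hn5 : 5 ≤ n := by
    have : (4 : ℝ) ≤ m := by exact_mod_cast h4
    rw [hn]
    linarith
  have hn0 : 0 < n := by linarith
  set Z : ℝ := ∑' ρ : Zt (D := zd (L := L)), (mu (D := zd (L := L)) ρ : ℝ) * (1 / (1 + (ρ : ℂ).im ^ 2)) with hZ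
  have hZ0 : 0 ≤ Z := tsum_nonneg fun ρ => by positivity
  have hr0 : (0 : ℝ) ≤ L.r := Nat.cast_nonneg _
  have hε := ep_pos m
  have hε2 : ep m = 1 / (2 * n) := rfl
  have hε4 : ep m ≤ 1 / 4 := by
    rw [hε2, div_le_div_iff₀ (by positivity) (by norm_num)]
    linarith
  have hN := N2_nonneg f
  have hJ := JJ_nonneg (ep m) m f
  set P : ℝ := (1200 * b ^ 2) ^ (m + 1) with hP
  have hP0 : 0 < P := by positivity
  have hb2 : 1 ≤ b ^ 2 := by nlinarith
  have hbn : b ^ 2 ≤ n := by nlinarith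
  have hbn' : b ≤ n := by nlinarith
  have han : a ≤ n := hab.trans hbn'
  have hE0 := Real.exp_pos (2 * a)
  have h24 : (2 : ℝ) ^ (m + 1) ≤ 4 ^ (m + 1) := pow_le_pow_left₀ (by norm_num) (by norm_num) _
  have hn7 : (0 : ℝ) ≤ n ^ 7 := by positivity
  have hD1 : n ^ 7 ≤ 2 ^ (m + 1) := by
    have : (0 : ℝ) ≤ (64 * L.r + 39321600 * Z) * n ^ 7 := by positivity
    linarith
  have hD2 : 64 * L.r * n ^ 7 ≤ 2 ^ (m + 1) := by
    have : (0 : ℝ) ≤ (39321600 * Z + 1) * n ^ 7 := by positivity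
    linarith
  have hD3 : 39321600 * Z * n ^ 7 ≤ 2 ^ (m + 1) := by
    have : (0 : ℝ) ≤ (64 * L.r + 1) * n ^ 7 := by positivity
    linarith
  -- the zeros
  have hT : 2 / ep m ≤ 800 * n * b := by
    rw [hε2]
    have : 2 / (1 / (2 * n)) = 4 * n := by field_simp; norm_num
    rw [this]
    nlinarith
  have hS1 := zero_side (D := zd (L := L)) ha hε (by linarith) hT hf m hz
  have hA1 : 2 * a * Real.exp (2 * a) * ((32 / (ep m ^ 2 * (800 * n * b) ^ 2)) ^ m * (64 / ep m ^ 2)) * Z ≤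
      1 / (16 * n * P) := by
    rw [le_div_iff₀ (by positivity)]
    have e1 : 32 / (ep m ^ 2 * (800 * n * b) ^ 2) = 1 / (5000 * b ^ 2) := by
      rw [hε2]
      field_simp
      norm_num
    have e2 : 64 / ep m ^ 2 = 256 * n ^ 2 := by
      rw [hε2]
      field_simp
      norm_num
    rw [e1, e2]
    have e3 : (1 / (5000 * b ^ 2)) ^ m * P ≤ (1 / 4) ^ m * (1200 * b ^ 2) := by
      rw [hP, pow_succ (1200 * b ^ 2) m, ← mul_assoc, ← mul_pow (1 / (5000 * b ^ 2)) (1200 * b ^ 2) m]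
      refine mul_le_mul_of_nonneg_right (pow_le_pow_left₀ (by positivity) ?_ m) (by positivity)
      have : 1 / (5000 * b ^ 2) * (1200 * b ^ 2) = 6 / 25 := by field_simp; norm_num
      rw [this]
      norm_num
    have e4 : (1 / 4 : ℝ) ^ m * 4 ^ (m + 1) = 4 := by
      rw [pow_succ, ← mul_assoc, ← mul_pow]
      norm_num
    have k1 : a * Real.exp (2 * a) * b ^ 2 * n ^ 3 ≤ n ^ 7 := by
      calc a * Real.exp (2 * a) * b ^ 2 * n ^ 3 ≤ n * n * n * n ^ 3 := by gcongr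
        _ = n ^ 6 := by ring
        _ ≤ n ^ 7 := pow_le_pow_right₀ (by linarith) (by norm_num)
    have hq : (0 : ℝ) ≤ (1 / 4 : ℝ) ^ m := by positivity
    calc 2 * a * Real.exp (2 * a) * ((1 / (5000 * b ^ 2)) ^ m * (256 * n ^ 2)) * Z * (16 * n * P)
        = (2 * a * Real.exp (2 * a) * (256 * n ^ 2) * Z * (16 * n)) * ((1 / (5000 * b ^ 2)) ^ m * P) := by ring
      _ ≤ (2 * a * Real.exp (2 * a) * (256 * n ^ 2) * Z * (16 * n)) * ((1 / 4) ^ m * (1200 * b ^ 2)) :=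
          mul_le_mul_of_nonneg_left e3 (by positivity)
      _ = 9830400 * Z * (a * Real.exp (2 * a) * b ^ 2 * n ^ 3) * (1 / 4) ^ m := by ring
      _ ≤ 9830400 * Z * n ^ 7 * (1 / 4) ^ m := by gcongr
      _ = (39321600 * Z * n ^ 7) * (1 / 4) ^ m / 4 := by ring
      _ ≤ 4 ^ (m + 1) * (1 / 4) ^ m / 4 := by
          have := mul_le_mul_of_nonneg_right (hD3.trans h24) hq
          linarith
      _ = 1 := by rw [mul_comm (4 ^ (m + 1) : ℝ), e4]; norm_num
  have hS1' : -(1 / (16 * n * P) * N2 f) ≤ ∑ j ∈ Finset.range (2 * m + 2), hc m j * QQ (D := zd (L := L)) (Ai (ep m) f j) := by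
    refine le_trans ?_ hS1
    have := mul_le_mul_of_nonneg_right hA1 hN
    linarith
  -- the primes
  have hm1 : (2 * (m : ℝ) + 1) * ep m ≤ 1 := by
    rw [hε2, mul_one_div, div_le_one (by positivity)]
    rw [hn]
    linarith
  have hS2 := prime_side (L := L) ha hε m hm1 hf hBs
  have harch := arch (L := L) ha hB hC0 hGD m hm (by
    have : n ^ 2 ≤ n ^ 7 := pow_le_pow_right₀ (by linarith) (by norm_num)
    linarith) hf
  have hpole : 2 * L.r * (‖GG f f (1 / 2)‖ * ‖lo m (sg (ep m) (1 / 2) ^ 2)‖) ≤ 1 / (16 * n * P) * N2 f := by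
    have k1 : ‖GG f f (1 / 2)‖ ≤ 2 * a * Real.exp (2 * a * (1 / 2)) * N2 f := norm_GG ha hf.1 (by norm_num)
    have k2 := lo_pole hε hε4 m
    have k3 : 2 * a * Real.exp (2 * a * (1 / 2)) * N2 f ≤ 2 * a * Real.exp (2 * a) * N2 f := by
      refine mul_le_mul_of_nonneg_right (mul_le_mul_of_nonneg_left (Real.exp_le_exp.2 ?_) (by positivity)) hN
      linarith
    have k4 : 24 * ep m = 12 / n := by rw [hε2]; field_simp; norm_num
    rw [k4] at k2
    have k5 : 2 * L.r * (2 * a * Real.exp (2 * a) * (12 / n) ^ (m + 1)) ≤ 1 / (16 * n * P) := by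
      rw [le_div_iff₀ (by positivity)]
      have e1 : (12 / n) ^ (m + 1) * P ≤ (1 / 4) ^ (m + 1) := by
        rw [hP, ← mul_pow]
        refine pow_le_pow_left₀ (by positivity) ?_ _
        rw [div_mul_eq_mul_div, div_le_iff₀ hn0]
        linarith
      have e2 : a * Real.exp (2 * a) * n ≤ n ^ 7 := by
        calc a * Real.exp (2 * a) * n ≤ n * n * n := by gcongr
          _ = n ^ 3 := by ring
          _ ≤ n ^ 7 := pow_le_pow_right₀ (by linarith) (by norm_num)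
      have hq : (0 : ℝ) ≤ (1 / 4 : ℝ) ^ (m + 1) := by positivity
      have e3 : (4 : ℝ) ^ (m + 1) * (1 / 4) ^ (m + 1) = 1 := by rw [← mul_pow]; norm_num
      calc 2 * L.r * (2 * a * Real.exp (2 * a) * (12 / n) ^ (m + 1)) * (16 * n * P)
          = (64 * L.r * (a * Real.exp (2 * a) * n)) * ((12 / n) ^ (m + 1) * P) := by ring
        _ ≤ (64 * L.r * n ^ 7) * (1 / 4) ^ (m + 1) := by gcongr
        _ ≤ 4 ^ (m + 1) * (1 / 4) ^ (m + 1) := mul_le_mul_of_nonneg_right (hD2.trans h24) hq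
        _ = 1 := e3
    calc 2 * L.r * (‖GG f f (1 / 2)‖ * ‖lo m (sg (ep m) (1 / 2) ^ 2)‖)
        ≤ 2 * L.r * ((2 * a * Real.exp (2 * a) * N2 f) * (12 / n) ^ (m + 1)) := by
          refine mul_le_mul_of_nonneg_left ?_ (by positivity)
          exact mul_le_mul (k1.trans k3) k2 (norm_nonneg _) (by positivity)
      _ = 2 * L.r * (2 * a * Real.exp (2 * a) * (12 / n) ^ (m + 1)) * N2 f := by ring
      _ ≤ _ := mul_le_mul_of_nonneg_right k5 hN
  -- the total
  have hQ : QQ (D := zd (L := L)) f = (∑ j ∈ Finset.range (2 * m + 2), hc m j * QQ (D := zd (L := L)) (Ai (ep m) f j)) +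
      ∑ j ∈ Finset.range (2 * m + 2), lc m j * QQ (D := zd (L := L)) (Ai (ep m) f j) :=
    sum_split m fun j => QQ (D := zd (L := L)) (Ai (ep m) f j)
  have hNJ : 4 * (1 / (16 * n * P) * N2 f) ≤ JJ (ep m) m f / 2 := by
    have h1 := N2_le ha m hf.1
    have h2 : 1 / (16 * n * P) * N2 f ≤ 1 / (16 * n * P) * (2 * n * P * JJ (ep m) m f) :=
      mul_le_mul_of_nonneg_left h1 (by positivity)
    have h3 : 1 / (16 * n * P) * (2 * n * P * JJ (ep m) m f) = JJ (ep m) m f / 8 := by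
      field_simp
      ring
    linarith
  have e : 1 / (8 * n * P) * N2 f = 2 * (1 / (16 * n * P) * N2 f) := by
    field_simp
    ring
  rw [e, hQ]
  linarith

/-- THE CORE -/
theorem core : ∃ C : ℝ, 0 < C ∧ ∀ a B : ℝ, 0 < a → 0 ≤ B →
    2 * ∑ n ∈ Finset.Icc 1 ⌊Real.exp (2 * (a + 1))⌋₊, ‖aL (L := L) n‖ ≤ B → ∃ c : ℝ, 0 < c ∧
      ∀ f : ℝ → ℂ, Hd a f → (∀ ρ : Zt (D := zd (L := L)), 1 / 2 < (ρ : ℂ).re → |(ρ : ℂ).im| ≤ Real.exp (C * (a + 1 + B)) →
        TT f ((ρ : ℂ) - 1 / 2) = 0) → c * N2 f ≤ QQ (D := zd (L := L)) f := by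
  obtain ⟨C0, hC0, hGD⟩ := GD_bd (L := L)
  set Z : ℝ := ∑' ρ : Zt (D := zd (L := L)), (mu (D := zd (L := L)) ρ : ℝ) * (1 / (1 + (ρ : ℂ).im ^ 2)) with hZ
  have hZ0 : 0 ≤ Z := tsum_nonneg fun ρ => by positivity
  have hr0 : (0 : ℝ) ≤ L.r := Nat.cast_nonneg _
  set D : ℝ := 64 * L.r + 39321600 * Z + 1 with hD
  have hD0 : 0 < D := by positivity
  have hlim := tendsto_pow_const_div_const_pow_of_one_lt 7 (show (1 : ℝ) < 2 by norm_num)
  obtain ⟨N0, hN0⟩ := eventually_atTop.1 (hlim.eventually (ge_mem_nhds (show (0 : ℝ) < 1 / D by positivity)))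
  set K : ℝ := C0 + 13 + N0 with hK
  have hN00 : (0 : ℝ) ≤ N0 := Nat.cast_nonneg _
  have hK13 : 13 ≤ K := by rw [hK]; linarith
  have hK6 : C0 + 6 ≤ K := by rw [hK]; linarith
  refine ⟨K + 9, by linarith, fun a B ha hB hBs => ?_⟩
  set b : ℝ := a + 1 with hb
  have hb1 : 1 ≤ b := by rw [hb]; linarith
  set E : ℝ := Real.exp (K * (b + B)) with hE
  have hE0 : 0 < E := Real.exp_pos _
  obtain ⟨m, hm⟩ : ∃ m : ℕ, ⌈E⌉₊ = m + 1 := ⟨⌈E⌉₊ - 1, by
    have := Nat.ceil_pos.2 hE0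
    omega⟩
  have hn : (m : ℝ) + 1 = (⌈E⌉₊ : ℝ) := by rw [hm]; push_cast; rfl
  have hnE : E ≤ (m : ℝ) + 1 := by rw [hn]; exact Nat.le_ceil E
  have hE1 : K * (b + B) + 1 ≤ E := Real.add_one_le_exp _
  have hKb : K ≤ K * (b + B) := by nlinarith
  have hn2E : (m : ℝ) + 1 ≤ 2 * E := by
    rw [hn]
    have := Nat.ceil_lt_add_one hE0.le
    linarith
  have hmul : ∀ x y : ℝ, x ≤ K * (b + B) → Real.exp x ≤ E := fun x _ h => Real.exp_le_exp.2 h
  have hb2 : b ≤ Real.exp b := by linarith [Real.add_one_le_exp b]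
  have hm4 : 4 ≤ m := by
    have h1 : (13 : ℝ) ≤ (m : ℝ) + 1 := by linarith
    have h2 : (4 : ℝ) ≤ m := by linarith
    exact_mod_cast h2
  have hmN0 : N0 ≤ m + 1 := by
    have h1 : (N0 : ℝ) ≤ ((m + 1 : ℕ) : ℝ) := by
      push_cast
      linarith
    exact_mod_cast h1
  have hp := hN0 (m + 1) hmN0
  rw [div_le_iff₀ (by positivity), one_div_mul_eq_div, le_div_iff₀ hD0] at hp
  have hKB : 0 ≤ K * B := by positivity
  have hmp : D * ((m : ℝ) + 1) ^ 7 ≤ 2 ^ (m + 1) := by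
    push_cast at hp
    linarith
  have h30 : 30 * b * Real.exp (B + C0 + 1) ≤ (m : ℝ) + 1 := by
    have k1 : (30 : ℝ) ≤ Real.exp 4 := by
      have h1 := Real.exp_one_gt_d9
      have h2 : Real.exp 4 = Real.exp 1 ^ 4 := by rw [← Real.exp_nat_mul]; norm_num
      rw [h2]
      have := pow_le_pow_left₀ (by norm_num) h1.le 4
      norm_num at this ⊢
      linarith
    calc 30 * b * Real.exp (B + C0 + 1) ≤ Real.exp 4 * Real.exp b * Real.exp (B + C0 + 1) := by gcongr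
      _ = Real.exp (4 + b + (B + C0 + 1)) := by rw [Real.exp_add (4 + b), Real.exp_add 4 b]
      _ ≤ E := Real.exp_le_exp.2 (by nlinarith)
      _ ≤ _ := hnE
  have h576 : 57600 * b ^ 2 ≤ (m : ℝ) + 1 := by
    have k1 : (57600 : ℝ) ≤ Real.exp 11 := by
      have h1 := Real.exp_one_gt_d9
      have h2 : Real.exp 11 = Real.exp 1 ^ 11 := by rw [← Real.exp_nat_mul]; norm_num
      rw [h2]
      have := pow_le_pow_left₀ (by norm_num) h1.le 11
      norm_num at this ⊢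
      linarith
    have k2 : b ^ 2 ≤ Real.exp (2 * b) := by
      have : Real.exp (2 * b) = Real.exp b ^ 2 := by rw [← Real.exp_nat_mul]; norm_num
      rw [this]
      exact pow_le_pow_left₀ (by linarith) hb2 2
    calc 57600 * b ^ 2 ≤ Real.exp 11 * Real.exp (2 * b) := by gcongr
      _ = Real.exp (11 + 2 * b) := by rw [Real.exp_add]
      _ ≤ E := Real.exp_le_exp.2 (by nlinarith)
      _ ≤ _ := hnE
  have hea : Real.exp (2 * a) ≤ (m : ℝ) + 1 := by
    refine le_trans (Real.exp_le_exp.2 ?_) hnE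
    have : a ≤ b := by rw [hb]; linarith
    nlinarith
  have hT : 800 * ((m : ℝ) + 1) * b ≤ Real.exp ((K + 9) * (b + B)) := by
    have k1 : (1600 : ℝ) ≤ Real.exp 8 := by
      have h1 := Real.exp_one_gt_d9
      have h2 : Real.exp 8 = Real.exp 1 ^ 8 := by rw [← Real.exp_nat_mul]; norm_num
      rw [h2]
      have := pow_le_pow_left₀ (by norm_num) h1.le 8
      norm_num at this ⊢
      linarith
    calc 800 * ((m : ℝ) + 1) * b ≤ 800 * (2 * E) * b := by gcongr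
      _ = 1600 * E * b := by ring
      _ ≤ Real.exp 8 * E * Real.exp b := by gcongr
      _ = Real.exp (8 + K * (b + B) + b) := by rw [Real.exp_add _ b, Real.exp_add 8]
      _ ≤ _ := Real.exp_le_exp.2 (by nlinarith)
  refine ⟨1 / (8 * ((m : ℝ) + 1) * (1200 * b ^ 2) ^ (m + 1)), by positivity, fun f hf hz => ?_⟩
  exact param (L := L) ha hB hC0 (fun y => (hGD y).2) hBs m hm4 h30 h576 hea hmp hf
    fun ρ h1 h2 => hz ρ h1 (h2.trans hT)

end

end Pool.Agent.Zk2.LW
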